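import Pool.Agent.H38.PWS.Stmts

/-!
# Row GEN
-/

set_option autoImplicit false

namespace Pool.PWS

open ArithmeticFunction Finset Pool.MKP

lemma sq_rad_le (n : ℕ) (B : Finset ℕ) (hB : B ⊆ n.primeFactors)
    (h : ∀ p ∈ B, p ≤ 3 ∨ 2 ≤ n.factorization p) :
    (∏ p ∈ B, p) ^ 2 ≤ 6 * ∏ p ∈ B, p ^ n.factorization p := by
  have h1 : ∀ p ∈ B, p ^ 2 ≤ (if p ≤ 3 then p else 1) * p ^ n.factorization p := by
    intro p hp
    have hpp := Nat.prime_of_mem_primeFactors (hB hp)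
    have hn0 : n ≠ 0 := by
      intro h
      have := hB hp
      rw [h] at this
      simp at this
    have h0 : 1 ≤ n.factorization p :=
      hpp.factorization_pos_of_dvd hn0 (Nat.dvd_of_mem_primeFactors (hB hp))
    split_ifs with h3
    · calc p ^ 2 = p * p ^ 1 := by ring
        _ ≤ p * p ^ n.factorization p :=
          Nat.mul_le_mul_left _ (Nat.pow_le_pow_right hpp.pos h0)
    · rcases h p hp with h | h
      · exact absurd h h3
      · rw [one_mul]
        exact Nat.pow_le_pow_right hpp.pos h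
  rw [← Finset.prod_pow]
  refine (Finset.prod_le_prod' h1).trans ?_
  rw [Finset.prod_mul_distrib]
  refine Nat.mul_le_mul_right _ ?_
  rw [← Finset.prod_filter]
  have h2 : B.filter (fun p => p ≤ 3) ⊆ {2, 3} := by
    intro p hp
    rw [Finset.mem_filter] at hp
    have hpp := (Nat.prime_of_mem_primeFactors (hB hp.1)).two_le
    have := hp.2
    simp only [Finset.mem_insert, Finset.mem_singleton]
    omega
  refine (Finset.prod_le_prod_of_subset_of_one_le' h2 ?_).trans ?_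
  · intro i hi _
    simp only [Finset.mem_insert, Finset.mem_singleton] at hi
    omega
  · decide

theorem GEN (hP : PTHStmt) (hO : ONEStmt) (hS : SELStmt) (hC : COLStmt) : GENStmt := by
  classical
  intro m n L hm hn hL hsig
  obtain ⟨P1, P2, P3, P4⟩ := hP n hn
  have hn0 : n ≠ 0 := by omega
  obtain ⟨T, hT⟩ : ∃ T, T = n.primeFactors.filter
      (fun p => (3 < p ∧ n.factorization p = 1) ∧ p ∣ it m n) := ⟨_, rfl⟩
  obtain ⟨T2, hT2⟩ : ∃ T, T = n.primeFactors.filter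
      (fun p => (3 < p ∧ n.factorization p = 1) ∧ ¬ p ∣ it m n) := ⟨_, rfl⟩
  obtain ⟨B, hB⟩ : ∃ T, T = n.primeFactors.filter
      (fun p => ¬ (3 < p ∧ n.factorization p = 1)) := ⟨_, rfl⟩
  obtain ⟨V, hV⟩ : ∃ V, V = T.filter (fun p => ∀ r, Pp n 0 r m p → r = p) := ⟨_, rfl⟩
  obtain ⟨U, hU⟩ : ∃ V, V = T.filter (fun p => ¬ ∀ r, Pp n 0 r m p → r = p) := ⟨_, rfl⟩
  have memT : ∀ p, p ∈ T ↔ p ∈ n.primeFactors ∧ (3 < p ∧ n.factorization p = 1) ∧
      p ∣ it m n := by intro p; rw [hT, Finset.mem_filter]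
  have memT2 : ∀ p, p ∈ T2 ↔ p ∈ n.primeFactors ∧ (3 < p ∧ n.factorization p = 1) ∧
      ¬ p ∣ it m n := by intro p; rw [hT2, Finset.mem_filter]
  have memB : ∀ p, p ∈ B ↔ p ∈ n.primeFactors ∧ ¬ (3 < p ∧ n.factorization p = 1) := by
    intro p; rw [hB, Finset.mem_filter]
  have memV : ∀ p, p ∈ V ↔ p ∈ T ∧ ∀ r, Pp n 0 r m p → r = p := by
    intro p; rw [hV, Finset.mem_filter]
  have memU : ∀ p, p ∈ U ↔ p ∈ T ∧ ¬ ∀ r, Pp n 0 r m p → r = p := by
    intro p; rw [hU, Finset.mem_filter]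
  have hitpos : ∀ i, 0 < it i n := fun i => it_pos hn i
  -- producers
  have hr : ∀ p, ∃ r, p ∈ U → (Pp n 0 r m p ∧ r ≠ p) := by
    intro p
    by_cases hp : p ∈ U
    · have := (memU p).1 hp
      obtain ⟨r, h1⟩ := not_forall.1 this.2
      obtain ⟨h1, h2⟩ := Classical.not_imp.1 h1
      exact ⟨r, fun _ => ⟨h1, h2⟩⟩
    · exact ⟨0, fun h => absurd h hp⟩
  choose r hr using hr
  have hself : ∀ p ∈ V, Pp n 0 p m p := by
    intro p hp
    rw [memV, memT] at hp
    obtain ⟨r', _, h2⟩ := P2 m p (Nat.mem_primeFactors.2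
      ⟨Nat.prime_of_mem_primeFactors hp.1.1, hp.1.2.2, (hitpos m).ne'⟩)
    have := hp.2 r' h2
    rwa [this] at h2
  have hz : ∀ p, ∃ jz : ℕ × ℕ, p ∈ V → (1 ≤ jz.1 ∧ jz.1 < m ∧
      2 ≤ (it jz.1 n).factorization jz.2 ∧ Pp n 0 p jz.1 jz.2 ∧ Pp n jz.1 jz.2 m p) := by
    intro p
    by_cases hp : p ∈ V
    · have h1 := (memT p).1 ((memV p).1 hp).1
      obtain ⟨j, w, h⟩ := hS m n p hm hn h1.2.1.1 h1.1 h1.2.1.2 (hself p hp)
      exact ⟨(j, w), fun _ => h⟩
    · exact ⟨(0, 0), fun h => absurd h hp⟩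
  choose jz hjz using hz
  obtain ⟨Q, hQU, hQ2, hQi⟩ := hC U r (fun p hp => (hr p hp).2)
  obtain ⟨Z, hZ⟩ : ∃ Z : ℕ → Finset ℕ, Z = fun i =>
      (V.filter (fun p => (jz p).1 = i)).image (fun p => (jz p).2) := ⟨_, rfl⟩
  have memZ : ∀ i z, z ∈ Z i ↔ ∃ p ∈ V, (jz p).1 = i ∧ (jz p).2 = z := by
    intro i z
    rw [hZ]
    simp only [Finset.mem_image, Finset.mem_filter]
    constructor
    · rintro ⟨p, ⟨h1, h2⟩, h3⟩; exact ⟨p, h1, h2, h3⟩
    · rintro ⟨p, h1, h2, h3⟩; exact ⟨p, ⟨h1, h2⟩, h3⟩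
  have hZsub : ∀ i, Z i ⊆ (it i n).primeFactors := by
    intro i z hz
    obtain ⟨p, hp, h1, h2⟩ := (memZ i z).1 hz
    have := (P1 _ _ _ _ (hjz p hp).2.2.2.1).2.1
    rwa [h1, h2] at this
  have hZ0 : Z 0 = ∅ := by
    rw [Finset.eq_empty_iff_forall_notMem]
    intro z hz
    obtain ⟨p, hp, h1, h2⟩ := (memZ 0 z).1 hz
    have := (hjz p hp).1
    omega
  have hTPF : T ⊆ n.primeFactors := fun p hp => ((memT p).1 hp).1
  have hT2PF : T2 ⊆ n.primeFactors := fun p hp => ((memT2 p).1 hp).1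
  have hBPF : B ⊆ n.primeFactors := fun p hp => ((memB p).1 hp).1
  have hUT : U ⊆ T := fun p hp => ((memU p).1 hp).1
  have hVT : V ⊆ T := fun p hp => ((memV p).1 hp).1
  have hQPF : Q ⊆ n.primeFactors := (hQU.trans hUT).trans hTPF
  have hBQPF : B ∪ Q ⊆ n.primeFactors := Finset.union_subset hBPF hQPF
  have prime_of_sub : ∀ {k : ℕ} {S : Finset ℕ}, S ⊆ k.primeFactors → ∀ p ∈ S, p.Prime :=
    fun h p hp => Nat.prime_of_mem_primeFactors (h hp)
  have prod_le : ∀ {k : ℕ} {S : Finset ℕ}, 0 < k → S ⊆ k.primeFactors → ∏ p ∈ S, p ≤ k := by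
    intro k S hk hS
    exact Nat.le_of_dvd hk
      ((Finset.prod_dvd_prod_of_subset _ _ _ hS).trans (Nat.prod_primeFactors_dvd k))
  have prod_pos : ∀ {k : ℕ} {S : Finset ℕ}, S ⊆ k.primeFactors → 0 < ∏ p ∈ S, p := by
    intro k S hS
    exact Finset.prod_pos fun p hp => (prime_of_sub hS p hp).pos
  obtain ⟨g, hg⟩ : ∃ g : ℕ → ℕ, g = fun i =>
      (if i = 0 then ∏ p ∈ B ∪ Q, p else 1) * ∏ z ∈ Z i, z := ⟨_, rfl⟩
  have hg0 : g 0 = ∏ p ∈ B ∪ Q, p := by
    rw [hg]; simp [hZ0]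
  have hgi : ∀ i, i ≠ 0 → g i = ∏ z ∈ Z i, z := by
    intro i hi
    rw [hg]; simp [hi]
  have hPF0 : (g 0).primeFactors = B ∪ Q := by
    rw [hg0]; exact Nat.primeFactors_prod (prime_of_sub hBQPF)
  have hPFi : ∀ i, i ≠ 0 → (g i).primeFactors = Z i := by
    intro i hi
    rw [hgi i hi]; exact Nat.primeFactors_prod (prime_of_sub (hZsub i))
  have hBpos : 0 < ∏ p ∈ B, p ^ n.factorization p :=
    Finset.prod_pos fun p hp => pow_pos (prime_of_sub hBPF p hp).pos _
  have hTpos : 0 < ∏ p ∈ T, p := prod_pos hTPF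
  have hn' : (∏ p ∈ T2, p) * ((∏ p ∈ B, p ^ n.factorization p) * ∏ p ∈ T, p) = n := by
    have e0 : ∏ p ∈ n.primeFactors, p ^ n.factorization p = n := by
      conv_rhs => rw [← Nat.prod_factorization_pow_eq_self hn0]
      rfl
    have e1 := Finset.prod_filter_mul_prod_filter_not n.primeFactors
      (fun p => 3 < p ∧ n.factorization p = 1) (fun p => p ^ n.factorization p)
    have e2 := Finset.prod_filter_mul_prod_filter_not
      (n.primeFactors.filter (fun p => 3 < p ∧ n.factorization p = 1))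
      (fun p => p ∣ it m n) (fun p => p ^ n.factorization p)
    rw [Finset.filter_filter, Finset.filter_filter, ← hT, ← hT2] at e2
    rw [← hB, ← e2, e0] at e1
    have e3 : ∏ p ∈ T, p ^ n.factorization p = ∏ p ∈ T, p :=
      Finset.prod_congr rfl fun p hp => by rw [((memT p).1 hp).2.1.2, pow_one]
    have e4 : ∏ p ∈ T2, p ^ n.factorization p = ∏ p ∈ T2, p :=
      Finset.prod_congr rfl fun p hp => by rw [((memT2 p).1 hp).2.1.2, pow_one]
    rw [e3, e4] at e1
    calc (∏ p ∈ T2, p) * ((∏ p ∈ B, p ^ n.factorization p) * ∏ p ∈ T, p)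
        = ((∏ p ∈ T, p) * ∏ p ∈ T2, p) * ∏ p ∈ B, p ^ n.factorization p := by ring
      _ = n := e1
  refine ⟨∏ p ∈ T2, p, (∏ p ∈ B, p ^ n.factorization p) * ∏ p ∈ T, p, g, hn', ?_, ?_, ?_, ?_, ?_⟩
  · -- the greatest common divisor
    apply Nat.le_of_dvd (Nat.mul_pos hBpos hTpos)
    have h1 : Nat.Coprime (Nat.gcd n (it m n)) (∏ p ∈ T2, p) := by
      rw [Nat.coprime_prod_right_iff]
      intro p hp
      rw [Nat.coprime_comm, (prime_of_sub hT2PF p hp).coprime_iff_not_dvd]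
      intro h
      exact ((memT2 p).1 hp).2.2 (h.trans (Nat.gcd_dvd_right _ _))
    apply h1.dvd_of_dvd_mul_left
    rw [hn']
    exact Nat.gcd_dvd_left _ _
  · -- size of g
    intro i hi
    by_cases h : i = 0
    · rw [h, hg0]
      exact ⟨prod_pos hBQPF, prod_le hn hBQPF⟩
    · rw [hgi i h]
      exact ⟨prod_pos (hZsub i), prod_le (hitpos i) (hZsub i)⟩
  · -- the main inequality
    have e1 : ∏ i ∈ range m, g i = (∏ p ∈ B ∪ Q, p) * ∏ i ∈ range m, ∏ z ∈ Z i, z := by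
      rw [hg]
      rw [Finset.prod_mul_distrib]
      congr 1
      rw [Finset.prod_ite_eq' (range m) 0 (fun _ => ∏ p ∈ B ∪ Q, p)]
      rw [if_pos (Finset.mem_range.2 (by omega))]
    have hdisj : Disjoint B Q := by
      rw [Finset.disjoint_left]
      intro p hp hq
      exact ((memB p).1 hp).2 ((memT p).1 (hUT (hQU hq))).2.1
    rw [e1, Finset.prod_union hdisj, mul_pow, mul_pow,
      ← Finset.prod_pow (range m) 2 (fun i => ∏ z ∈ Z i, z)]
    have b1 : (∏ p ∈ B, p) ^ 2 ≤ 6 * ∏ p ∈ B, p ^ n.factorization p := by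
      apply sq_rad_le n B hBPF
      intro p hp
      have hp' := (memB p).1 hp
      have h0 : 1 ≤ n.factorization p :=
        (Nat.prime_of_mem_primeFactors hp'.1).factorization_pos_of_dvd hn0
          (Nat.dvd_of_mem_primeFactors hp'.1)
      by_contra hcon
      apply hp'.2
      omega
    have b3 : ∀ i ∈ range m, (∏ z ∈ Z i, z) ^ 2 ≤
        L ^ m * ∏ p ∈ V.filter (fun p => (jz p).1 = i), p := by
      intro i hi
      have hi' : i < m := Finset.mem_range.1 hi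
      have c1 := hO m n L hn hsig (V.filter (fun p => (jz p).1 = i))
        (((Finset.filter_subset _ _).trans hVT).trans hTPF)
        (fun p hp => ((memT p).1 (hVT (Finset.mem_filter.1 hp).1)).2.1.2) i hi'.le (Z i) (hZsub i)
        (by
          intro z hz r' hr'
          obtain ⟨p, hp, h1, h2⟩ := (memZ i z).1 hz
          have h3 := (hjz p hp).2.2.2.2
          rw [h1, h2] at h3
          have h4 := ((memV p).1 hp).2 r' (P3 _ _ _ _ _ _ hr' h3)
          rw [h4, Finset.mem_filter]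
          exact ⟨hp, h1⟩)
      refine le_trans ?_ (c1.trans (Nat.mul_le_mul_right _ (Nat.pow_le_pow_right hL hi'.le)))
      rw [← Finset.prod_pow]
      apply Finset.prod_le_prod'
      intro z hz
      obtain ⟨p, hp, h1, h2⟩ := (memZ i z).1 hz
      have h3 := (hjz p hp).2.2.1
      rw [h1, h2] at h3
      exact Nat.pow_le_pow_right (prime_of_sub (hZsub i) z hz).pos h3
    have b4 : ∏ i ∈ range m, (∏ z ∈ Z i, z) ^ 2 ≤ L ^ (m * m) * ∏ p ∈ V, p := by
      refine (Finset.prod_le_prod' b3).trans ?_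
      rw [Finset.prod_mul_distrib, Finset.prod_const, Finset.card_range, ← pow_mul]
      rw [Finset.prod_fiberwise_of_maps_to (fun p hp => Finset.mem_range.2 (hjz p hp).2.1)]
    have b5 : (∏ p ∈ U, p) * ∏ p ∈ V, p = ∏ p ∈ T, p := by
      rw [hU, hV, mul_comm]
      exact Finset.prod_filter_mul_prod_filter_not _ _ _
    calc (∏ p ∈ B, p) ^ 2 * (∏ p ∈ Q, p) ^ 2 * ∏ i ∈ range m, (∏ z ∈ Z i, z) ^ 2
        ≤ (6 * ∏ p ∈ B, p ^ n.factorization p) * (∏ p ∈ U, p) * (L ^ (m * m) * ∏ p ∈ V, p) :=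
          Nat.mul_le_mul (Nat.mul_le_mul b1 hQ2) b4
      _ = 6 * L ^ (m * m) * ((∏ p ∈ B, p ^ n.factorization p) *
          ((∏ p ∈ U, p) * ∏ p ∈ V, p)) := by ring
      _ = _ := by rw [b5]
  · -- in the ambient set
    intro e he
    rw [Gd, Finset.mem_union, Finset.mem_image, Finset.mem_biUnion] at he
    rw [Amb, Finset.mem_biUnion]
    rcases he with ⟨p, hp, rfl⟩ | ⟨i, hi, he⟩
    · rw [Nat.primeFactors_prod (prime_of_sub hT2PF)] at hp
      refine ⟨0, Finset.mem_range.2 (by omega), Finset.mem_image.2 ⟨p, ?_, rfl⟩⟩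
      exact Finset.mem_union_left _ (hT2PF hp)
    · rw [Finset.mem_image] at he
      obtain ⟨z, hz, rfl⟩ := he
      refine ⟨i, hi, Finset.mem_image.2 ⟨z, ?_, rfl⟩⟩
      apply Finset.mem_union_left
      by_cases h : i = 0
      · rw [h] at hz ⊢
        rw [hPF0] at hz
        exact hBQPF hz
      · rw [hPFi i h] at hz
        exact hZsub i hz
  · -- generation
    have g1 : ∀ p ∈ B ∪ Q, Rch m n (Gd m (∏ p ∈ T2, p) g) (0, p) := by
      intro p hp
      apply Rch.base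
      rw [Gd, Finset.mem_union]
      right
      rw [Finset.mem_biUnion]
      refine ⟨0, Finset.mem_range.2 (by omega), Finset.mem_image.2 ⟨p, ?_, rfl⟩⟩
      rw [hPF0]; exact hp
    have g2 : ∀ p ∈ T2, Rch m n (Gd m (∏ p ∈ T2, p) g) (0, p) := by
      intro p hp
      apply Rch.base
      rw [Gd, Finset.mem_union]
      left
      refine Finset.mem_image.2 ⟨p, ?_, rfl⟩
      rw [Nat.primeFactors_prod (prime_of_sub hT2PF)]; exact hp
    have g3 : ∀ p ∈ V, Rch m n (Gd m (∏ p ∈ T2, p) g) (0, p) := by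
      intro p hp
      obtain ⟨h1, h2, h3, h4, h5⟩ := hjz p hp
      apply P4 m _ (jz p).1 (jz p).2 p h2 h5
      apply Rch.base
      rw [Gd, Finset.mem_union]
      right
      rw [Finset.mem_biUnion]
      refine ⟨(jz p).1, Finset.mem_range.2 h2, Finset.mem_image.2 ⟨(jz p).2, ?_, rfl⟩⟩
      rw [hPFi _ (by omega), memZ]
      exact ⟨p, hp, rfl, rfl⟩
    have g4 : ∀ p ∈ n.primeFactors, p ∉ U → Rch m n (Gd m (∏ p ∈ T2, p) g) (0, p) := by
      intro p hp hpU
      by_cases h1 : 3 < p ∧ n.factorization p = 1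
      · by_cases h2 : p ∣ it m n
        · have hpT : p ∈ T := (memT p).2 ⟨hp, h1, h2⟩
          by_cases h3 : ∀ r, Pp n 0 r m p → r = p
          · exact g3 p ((memV p).2 ⟨hpT, h3⟩)
          · exact absurd ((memU p).2 ⟨hpT, h3⟩) hpU
        · exact g2 p ((memT2 p).2 ⟨hp, h1, h2⟩)
      · exact g1 p (Finset.mem_union_left _ ((memB p).2 ⟨hp, h1⟩))
    have g5 := hQi (fun p => Rch m n (Gd m (∏ p ∈ T2, p) g) (0, p))
      (fun p hp => g1 p (Finset.mem_union_right _ hp))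
      (fun p hp hrU => g4 (r p) (P1 _ _ _ _ (hr p hp).1).1 hrU)
      (fun p hp h => P4 m _ 0 (r p) p (by omega) (hr p hp).1 h)
    intro p hp
    by_cases h : p ∈ U
    · exact g5 p h
    · exact g4 p hp h

end Pool.PWS
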