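import Pool.Agent.H38.PWS.Explicit
import Pool.Agent.H38.PWS.GEN
import Pool.Agent.H3.PWS.ONE
import Pool.Agent.H14.PWS.TRE
import Pool.Agent.H22.PWS.LLB
import Pool.Agent.H44.PWS.PTH
import Pool.Agent.H55.PWS.COL
import Pool.Agent.H62.PWS.SEL
import Pool.Agent.H70.PWS.AMB

/-!
# The explicit form of the square root bound
-/

set_option autoImplicit false

namespace Pool.PWS

open ArithmeticFunction Finset Pool.MKP

/-- number of integers with a given generating set -/
theorem card_Cls_le (m N : ℕ) (hm : 1 ≤ m) (G : Finset (ℕ × ℕ)) :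
    ((Cls m N G).card : ℝ) ≤ Real.exp (41 * m * (LL m N / Real.log (LL m N))) := by
  classical
  set B := 41 * m * (LL m N / Real.log (LL m N)) with hB
  set δ := 1 / Real.log (LL m N) with hδ
  have hδ0 : 0 < δ := by
    have := one_le_log (three_le_LL (m := m) (N := N) hm)
    positivity
  have hA : ∀ n ∈ Cls m N G, (1 ≤ n ∧ n ≤ N) ∧ G ⊆ Amb m n ∧
      ∀ p ∈ n.primeFactors, Rch m n G (0, p) := by
    intro n hn
    unfold Cls at hn
    rw [mem_filter, mem_Icc] at hn
    exact hn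
  set E : ℕ → Finset (ℕ × ℕ) := fun n => (Amb m n).filter fun e => Rch m n G e with hE
  have hEm : ∀ n e, e ∈ E n ↔ e ∈ Amb m n ∧ Rch m n G e := fun n e => mem_filter
  have key := TRE (Cls m N G) val E (fun e => (e.2 : ℝ) ^ (-δ)) (by
    intro n _ e he
    have h4 : (2:ℝ) ≤ (e.2 : ℝ) := by exact_mod_cast (wlb_mem ((hEm n e).mp he).1).2.two_le
    exact ⟨by positivity, Real.rpow_lt_one_of_one_lt_of_neg (by linarith) (by linarith)⟩) (by
    intro S n hn hS
    by_cases ha : ∃ e ∈ G, e ∉ S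
    · obtain ⟨e, heG, heS⟩ := ha
      refine Or.inr ⟨e, heS, fun n' hn' _ _ => ?_⟩
      exact (hEm n' e).mpr ⟨(hA n' hn').2.1 heG, Rch.base heG⟩
    push Not at ha
    by_cases hb : ∃ e ∈ S, ∃ e' ∈ out m e (val n e), e' ∉ S
    · obtain ⟨e, heS, e', he', heS'⟩ := hb
      refine Or.inr ⟨e', heS', fun n' hn' hS' hag => ?_⟩
      have h5 := (hEm n' e).mp (hS' heS)
      rw [← hag e heS] at he'
      exact (hEm n' e').mpr ⟨AMB m n' hm (hA n' hn').1.1 e h5.1 e' he', Rch.step h5.2 he'⟩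
    push Not at hb
    left
    intro n' hn' hS' hag
    have hr : ∀ e, Rch m n G e → e ∈ S := by
      intro e he
      induction he with
      | base h => exact ha _ h
      | step _ h ih => exact hb _ ih _ h
    have hr' : ∀ e, Rch m n' G e → e ∈ S := by
      intro e he
      induction he with
      | base h => exact ha _ h
      | step _ h ih =>
        rw [hag _ ih] at h
        exact hb _ ih _ h
    have h0 : n ≠ 0 := by have := (hA n hn).1.1; omega
    have h0' : n' ≠ 0 := by have := (hA n' hn').1.1; omega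
    refine Nat.eq_of_factorization_eq h0' h0 fun p => ?_
    by_cases hp : p ∈ n.primeFactors
    · have := hag (0, p) (hr _ ((hA n hn).2.2 p hp))
      unfold val at this
      simpa [it_zero] using this
    by_cases hp' : p ∈ n'.primeFactors
    · have := hag (0, p) (hr' _ ((hA n' hn').2.2 p hp'))
      unfold val at this
      simpa [it_zero] using this
    rw [Finsupp.notMem_support_iff.mp (by rwa [Nat.support_factorization]),
      Finsupp.notMem_support_iff.mp (by rwa [Nat.support_factorization])])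
  have hlow : ((Cls m N G).card : ℝ) * Real.exp (-B) ≤
      ∑ n ∈ Cls m N G, ∏ e ∈ E n, ((1 - (e.2 : ℝ) ^ (-δ)) * ((e.2 : ℝ) ^ (-δ)) ^ val n e) := by
    rw [← nsmul_eq_mul]
    refine card_nsmul_le_sum _ _ _ fun n hn => ?_
    exact WLX m N n hm (hA n hn).1.1 (hA n hn).1.2 (E n) (filter_subset _ _)
  have h6 : ((Cls m N G).card : ℝ) * Real.exp (-B) ≤ 1 := hlow.trans key
  rw [Real.exp_neg, ← div_eq_mul_inv, div_le_one (Real.exp_pos _)] at h6
  exact h6

theorem gen_all : GENStmt := GEN PTH ONE (SEL PTH) COL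

/-- the bound in terms of `L` -/
theorem boundL (m : ℕ) (hm : 1 ≤ m) : ∃ C : ℝ, 0 < C ∧ ∀ N M D : ℕ, 1 ≤ N → M ≤ N → 1 ≤ D →
    (((Icc 1 M).filter fun n => D ≤ Nat.gcd n (it m n)).card : ℝ)
      ≤ Real.exp (C * (LL m N / Real.log (LL m N))) * M / Real.sqrt D := by
  have hm1 : (1 : ℝ) ≤ m := by exact_mod_cast hm
  -- `c` bounds all polynomial factors
  obtain ⟨c, hc⟩ : ∃ c : ℝ, c = 6 + (m * m : ℕ) + (m * (m + 1) : ℕ) + (m + 1 : ℕ) := ⟨_, rfl⟩
  have hc0 : 0 < c := by rw [hc]; positivity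
  refine ⟨41 * m + 16 * c, by positivity, ?_⟩
  intro N M D hN hM hD
  have h1 := fincore gen_all LLB m N hm hN _ (Real.exp_pos _).le
    (fun G => card_Cls_le m N hm G) M D hM hD
  refine h1.trans ?_
  have hL : 3 ≤ LL m N := three_le_LL hm
  have hLN : 1 + Real.log N ≤ LL m N := by
    have h2 : N < 2 ^ (Nat.log 2 N + 1) := Nat.lt_pow_succ_log_self (by norm_num) N
    have h3 : Real.log N ≤ (Nat.log 2 N + 1 : ℕ) * Real.log 2 := by
      rw [← Real.log_pow]
      apply Real.log_le_log (by exact_mod_cast hN)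
      exact_mod_cast h2.le
    have h4 : Real.log 2 ≤ 1 := by
      have := Real.log_two_lt_d9
      linarith
    have h5 : Real.log N ≤ (Nat.log 2 N + 1 : ℕ) := by
      refine h3.trans ?_
      have : (0 : ℝ) ≤ (Nat.log 2 N + 1 : ℕ) := Nat.cast_nonneg _
      nlinarith
    have h6 : Nat.log 2 N + 1 + 1 ≤ LL m N := by
      unfold LL
      have : 1 * (Nat.log 2 N + 1) ≤ 2 ^ m * (Nat.log 2 N + 1) :=
        Nat.mul_le_mul_right _ Nat.one_le_two_pow
      omega
    have h7 : ((Nat.log 2 N + 1 : ℕ) : ℝ) + 1 ≤ LL m N := by exact_mod_cast h6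
    linarith
  obtain ⟨L, hLd⟩ : ∃ L, L = LL m N := ⟨_, rfl⟩
  rw [← hLd] at hL hLN ⊢
  have hl := one_le_log hL
  have hL3 : (3 : ℝ) ≤ L := by exact_mod_cast hL
  have hLpos : (0 : ℝ) < L := by linarith
  set ℓ := Real.log L with hℓ
  set A : ℝ := L / ℓ with hA
  have hlogA : ℓ ≤ 16 * A := by
    rw [hA, mul_div_assoc', le_div_iff₀ (by linarith)]
    have h2 := log_sq_le hL
    have h3 : Real.sqrt L ≤ L := by
      rw [Real.sqrt_le_left (by linarith)]
      nlinarith
    rw [← hℓ] at h2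
    nlinarith
  have hexpl : Real.exp ℓ = L := Real.exp_log hLpos
  have e1 : Real.sqrt (6 * (L : ℝ) ^ (m * m)) ≤ Real.exp ((6 + (m * m : ℕ)) * ℓ) := by
    have h2 : (1 : ℝ) ≤ 6 * (L : ℝ) ^ (m * m) := by
      have := one_le_pow₀ (n := m * m) (show (1 : ℝ) ≤ L by linarith)
      linarith
    have h3 : Real.sqrt (6 * (L : ℝ) ^ (m * m)) ≤ 6 * (L : ℝ) ^ (m * m) := by
      rw [Real.sqrt_le_left (by linarith)]
      nlinarith
    refine h3.trans ?_
    rw [add_mul, Real.exp_add]
    apply mul_le_mul _ _ (by positivity) (Real.exp_pos _).le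
    · have h4 := Real.add_one_le_exp (6 * ℓ)
      linarith
    · rw [← hexpl, ← Real.exp_nat_mul]
  have e2 : (2 ^ m * (1 + Real.log N)) ^ (m + 1) ≤
      Real.exp (((m * (m + 1) : ℕ) + (m + 1 : ℕ)) * ℓ) := by
    have hlogN : 0 ≤ Real.log N := Real.log_nonneg (by exact_mod_cast hN)
    rw [mul_pow, add_mul, Real.exp_add]
    apply mul_le_mul _ _ (by positivity) (Real.exp_pos _).le
    · rw [← pow_mul, Real.exp_nat_mul, hexpl]
      exact pow_le_pow_left₀ (by norm_num) (by linarith) _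
    · rw [Real.exp_nat_mul, hexpl]
      exact pow_le_pow_left₀ (by linarith) hLN _
  have hM0 : (0 : ℝ) ≤ M := Nat.cast_nonneg _
  calc Real.exp (41 * m * A) * (Real.sqrt (6 * (L : ℝ) ^ (m * m)) * M / Real.sqrt D) *
        (2 ^ m * (1 + Real.log N)) ^ (m + 1)
      = (Real.exp (41 * m * A) * (Real.sqrt (6 * (L : ℝ) ^ (m * m)) *
        (2 ^ m * (1 + Real.log N)) ^ (m + 1))) * (M / Real.sqrt D) := by ring
    _ ≤ (Real.exp (41 * m * A) * (Real.exp ((6 + (m * m : ℕ)) * ℓ) *
        Real.exp (((m * (m + 1) : ℕ) + (m + 1 : ℕ)) * ℓ))) * (M / Real.sqrt D) := by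
        apply mul_le_mul_of_nonneg_right _ (by positivity)
        apply mul_le_mul_of_nonneg_left _ (Real.exp_pos _).le
        have hlogN : 0 ≤ Real.log N := Real.log_nonneg (by exact_mod_cast hN)
        exact mul_le_mul e1 e2 (by positivity) (Real.exp_pos _).le
    _ = Real.exp (41 * m * A + c * ℓ) * (M / Real.sqrt D) := by
        rw [← Real.exp_add, ← Real.exp_add, hc]
        congr 2
        ring
    _ ≤ Real.exp ((41 * m + 16 * c) * A) * (M / Real.sqrt D) := by
        apply mul_le_mul_of_nonneg_right _ (by positivity)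
        apply Real.exp_le_exp.2
        nlinarith
    _ = _ := by ring

end Pool.PWS
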