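import Pool.Agent.H38.PWS.Stmts
import Pool.Agent.H38.MKP.Final

/-!
# The final sum
-/

set_option autoImplicit false

namespace Pool.PWS

open ArithmeticFunction Finset Pool.MKP

lemma harm_le (m N : ℕ) (hN : 1 ≤ N) :
    ∑ k ∈ Icc (1 : ℕ) (N ^ (2 ^ m)), (1 : ℝ) / (k : ℝ) ≤ 2 ^ m * (1 + Real.log N) := by
  have h1 : ∑ k ∈ Icc (1 : ℕ) (N ^ (2 ^ m)), (1 : ℝ) / (k : ℝ)
      ≤ 1 + Real.log ((N ^ (2 ^ m) : ℕ) : ℝ) := by
    have h2 := harmonic_le_one_add_log (N ^ (2 ^ m))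
    rw [harmonic_eq_sum_Icc] at h2
    push_cast at h2 ⊢
    simp only [one_div]
    exact h2
  refine h1.trans ?_
  push_cast
  rw [Real.log_pow]
  push_cast
  have h5 : (1 : ℝ) ≤ 2 ^ m := one_le_pow₀ (by norm_num)
  linarith

/-- the function on `ℕ` given by a function on `Fin m` -/
def ext (m : ℕ) (g : Fin m → ℕ) (j : ℕ) : ℕ := if h : j < m then g ⟨j, h⟩ else 1

lemma Gd_congr {m t : ℕ} {g g' : ℕ → ℕ} (h : ∀ i < m, g i = g' i) : Gd m t g = Gd m t g' := by
  unfold Gd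
  congr 1
  apply Finset.biUnion_congr rfl
  intro i hi
  rw [h i (Finset.mem_range.1 hi)]

theorem fincore (hG : GENStmt) (hLL : LLBStmt) (m N : ℕ) (hm : 1 ≤ m) (hN : 1 ≤ N) (K : ℝ)
    (hK : 0 ≤ K) (hc : ∀ G, ((Cls m N G).card : ℝ) ≤ K) (M D : ℕ) (hM : M ≤ N) (hD : 1 ≤ D) :
    (((Icc 1 M).filter fun n => D ≤ Nat.gcd n (it m n)).card : ℝ)
      ≤ K * (Real.sqrt (6 * (LL m N : ℝ) ^ (m * m)) * M / Real.sqrt D) *
        (2 ^ m * (1 + Real.log N)) ^ (m + 1) := by
  classical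
  obtain ⟨L1, L2⟩ := hLL m N hN
  set L := LL m N with hLdef
  have hL1 : 1 ≤ L := by rw [hLdef, LL]; omega
  set X := N ^ 2 ^ m with hX
  have hXpos : 1 ≤ X := Nat.one_le_pow _ _ hN
  set R : ℝ := Real.sqrt (6 * (L : ℝ) ^ (m * m)) * M / Real.sqrt D with hR
  have hD' : (0 : ℝ) < D := by exact_mod_cast hD
  have hR0 : 0 ≤ R := by positivity
  set H : ℝ := ∑ k ∈ Icc (1 : ℕ) X, (1 : ℝ) / (k : ℝ) with hH
  have hH0 : 0 ≤ H := Finset.sum_nonneg fun k _ => by positivity
  have hH1 : H ≤ 2 ^ m * (1 + Real.log N) := harm_le m N hN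
  set I : Finset (ℕ × (Fin m → ℕ)) :=
    (Icc 1 X) ×ˢ (Fintype.piFinset fun _ : Fin m => Icc 1 X) with hI
  set I' := I.filter fun i => (i.1 : ℝ) * ∏ j, (i.2 j : ℝ) ≤ R with hI'
  have step1 : (((Icc 1 M).filter fun n => D ≤ Nat.gcd n (it m n)).card : ℝ) ≤
      ∑ i ∈ I', ((Cls m N (Gd m i.1 (ext m i.2))).card : ℝ) := by
    apply card_le_sum
    intro n hn
    rw [Finset.mem_filter, Finset.mem_Icc] at hn
    obtain ⟨⟨hn1, hnM⟩, hDn⟩ := hn
    have hnN : n ≤ N := hnM.trans hM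
    have hitX : ∀ i ≤ m, it i n ≤ X := by
      intro i hi
      exact (it_le hnN i).trans (Nat.pow_le_pow_right hN (Nat.pow_le_pow_right (by norm_num) hi))
    obtain ⟨t, u, g, htu, hgcd, hg, hprod, hsub, hgen⟩ := hG m n L hm hn1 hL1 (by
      intro i hi k hk
      have hkpos : 1 ≤ k := Nat.pos_of_dvd_of_pos hk (it_pos hn1 i)
      exact (L1 k hkpos ((Nat.le_of_dvd (it_pos hn1 i) hk).trans (hitX i hi))).1)
    have htpos : 1 ≤ t := by
      rcases Nat.eq_zero_or_pos t with h | h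
      · rw [h, zero_mul] at htu; omega
      · exact h
    have hupos : 1 ≤ u := by
      rcases Nat.eq_zero_or_pos u with h | h
      · rw [h, mul_zero] at htu; omega
      · exact h
    have hext : ∀ i < m, ext m (fun j : Fin m => g j) i = g i := by
      intro i hi
      simp [ext, hi]
    have hprodR : ∏ j : Fin m, (g j : ℝ) = ((∏ i ∈ range m, g i : ℕ) : ℝ) := by
      rw [Finset.prod_range]
      push_cast
      rfl
    refine ⟨(t, fun j : Fin m => g j), ?_, ?_⟩
    · rw [hI', Finset.mem_filter]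
      refine ⟨?_, ?_⟩
      · rw [hI, Finset.mem_product]
        refine ⟨?_, ?_⟩
        · rw [Finset.mem_Icc]
          refine ⟨htpos, ?_⟩
          calc t ≤ t * u := Nat.le_mul_of_pos_right _ hupos
            _ = n := htu
            _ ≤ X := by simpa [it_zero] using hitX 0 (Nat.zero_le _)
        · rw [Fintype.mem_piFinset]
          intro j
          rw [Finset.mem_Icc]
          exact ⟨(hg j j.2).1, (hg j j.2).2.trans (hitX j j.2.le)⟩
      · show (t : ℝ) * ∏ j : Fin m, (g j : ℝ) ≤ R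
        rw [hprodR]
        set G := ∏ i ∈ range m, g i with hGdef
        have e1 : (t * G) ^ 2 * D ≤ 6 * L ^ (m * m) * M ^ 2 := by
          calc (t * G) ^ 2 * D ≤ (t * G) ^ 2 * u := Nat.mul_le_mul_left _ (hDn.trans hgcd)
            _ = t ^ 2 * u * G ^ 2 := by ring
            _ ≤ t ^ 2 * u * (6 * L ^ (m * m) * u) := Nat.mul_le_mul_left _ hprod
            _ = 6 * L ^ (m * m) * (t * u) ^ 2 := by ring
            _ ≤ 6 * L ^ (m * m) * M ^ 2 := by
                rw [htu]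
                exact Nat.mul_le_mul_left _ (Nat.pow_le_pow_left hnM 2)
        have e2 : ((t : ℝ) * G) ^ 2 * D ≤ 6 * (L : ℝ) ^ (m * m) * (M : ℝ) ^ 2 := by
          exact_mod_cast e1
        rw [hR, le_div_iff₀ (Real.sqrt_pos.2 hD')]
        apply le_of_sq_le_sq _ (by positivity)
        rw [mul_pow, mul_pow _ (M : ℝ), Real.sq_sqrt hD'.le, Real.sq_sqrt (by positivity)]
        exact e2
    · show n ∈ Cls m N (Gd m t (ext m fun j : Fin m => g j))
      rw [Gd_congr hext]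
      unfold Cls
      rw [Finset.mem_filter, Finset.mem_Icc]
      exact ⟨⟨hn1, hnN⟩, hsub, hgen⟩
  have step2 : ∑ i ∈ I', ((Cls m N (Gd m i.1 (ext m i.2))).card : ℝ) ≤ K * I'.card := by
    calc ∑ i ∈ I', ((Cls m N (Gd m i.1 (ext m i.2))).card : ℝ) ≤ ∑ i ∈ I', K :=
          Finset.sum_le_sum fun i _ => hc _
      _ = K * I'.card := by rw [Finset.sum_const, nsmul_eq_mul, mul_comm]
  have step3 : (I'.card : ℝ) ≤ R * H ^ (m + 1) := by
    have f1 : (I'.card : ℝ) ≤ ∑ i ∈ I', R * ((1 : ℝ) / i.1 * ∏ j, (1 : ℝ) / (i.2 j : ℝ)) := by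
      rw [← nsmul_one, ← Finset.sum_const]
      apply Finset.sum_le_sum
      intro i hi
      rw [hI', Finset.mem_filter, hI, Finset.mem_product, Finset.mem_Icc,
        Fintype.mem_piFinset] at hi
      obtain ⟨⟨⟨h1, _⟩, h2⟩, h3⟩ := hi
      have h1' : (0 : ℝ) < i.1 := by exact_mod_cast h1
      have h2' : ∀ j, (0 : ℝ) < i.2 j := fun j => by
        have := (Finset.mem_Icc.1 (h2 j)).1
        exact_mod_cast this
      have h4 : (0 : ℝ) < ∏ j, (i.2 j : ℝ) := Finset.prod_pos fun j _ => h2' j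
      have h5 : ∏ j, (1 : ℝ) / (i.2 j : ℝ) = 1 / ∏ j, (i.2 j : ℝ) := by
        simp only [one_div]
        rw [Finset.prod_inv_distrib]
      rw [h5, div_mul_div_comm, one_mul, mul_one_div, le_div_iff₀ (mul_pos h1' h4), one_mul]
      exact h3
    refine f1.trans ?_
    rw [← Finset.mul_sum]
    apply mul_le_mul_of_nonneg_left _ hR0
    calc ∑ i ∈ I', (1 : ℝ) / i.1 * ∏ j, (1 : ℝ) / (i.2 j : ℝ)
        ≤ ∑ i ∈ I, (1 : ℝ) / i.1 * ∏ j, (1 : ℝ) / (i.2 j : ℝ) := by
          apply Finset.sum_le_sum_of_subset_of_nonneg (Finset.filter_subset _ _)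
          intro i _ _
          have : 0 ≤ ∏ j, (1 : ℝ) / (i.2 j : ℝ) := Finset.prod_nonneg fun j _ => by positivity
          positivity
      _ = H ^ (m + 1) := by
          rw [hI, Finset.sum_product]
          simp only
          have f2 : ∑ g ∈ Fintype.piFinset (fun _ : Fin m => Icc 1 X),
              ∏ j, (1 : ℝ) / (g j : ℝ) = H ^ m := by
            have := Finset.prod_univ_sum (fun _ : Fin m => Icc 1 X)
              (fun _ k => (1 : ℝ) / (k : ℝ))
            rw [← this, Finset.prod_const, Finset.card_univ, Fintype.card_fin]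
          rw [Finset.sum_congr rfl fun t _ => by rw [← Finset.mul_sum, f2],
            ← Finset.sum_mul, ← hH]
          ring
  calc (((Icc 1 M).filter fun n => D ≤ Nat.gcd n (it m n)).card : ℝ)
      ≤ K * I'.card := step1.trans step2
    _ ≤ K * (R * H ^ (m + 1)) := mul_le_mul_of_nonneg_left step3 hK
    _ ≤ K * (R * (2 ^ m * (1 + Real.log N)) ^ (m + 1)) :=
        mul_le_mul_of_nonneg_left (mul_le_mul_of_nonneg_left (pow_le_pow_left₀ hH0 hH1 _) hR0) hK
    _ = _ := by ring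

end Pool.PWS
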