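import Pool.Agent.H38.PWS.Core
import Pool.Agent.H36.PWS.WLB

/-!
# Explicit form of the cost of the exponents
-/

set_option autoImplicit false

namespace Pool.PWS

open ArithmeticFunction Finset Pool.MKP

lemma three_le_LL {m N : ℕ} (hm : 1 ≤ m) : 3 ≤ LL m N := by
  unfold LL
  have h1 : 2 ≤ 2 ^ m := by
    calc 2 = 2 ^ 1 := rfl
      _ ≤ 2 ^ m := Nat.pow_le_pow_right (by norm_num) hm
  have h2 : 2 * 1 ≤ 2 ^ m * (Nat.log 2 N + 1) := Nat.mul_le_mul h1 (by omega)
  omega

lemma X_le (m N : ℕ) : N ^ 2 ^ m ≤ 2 ^ LL m N := by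
  have h1 : N ≤ 2 ^ (Nat.log 2 N + 1) := (Nat.lt_pow_succ_log_self (by norm_num) N).le
  calc N ^ 2 ^ m ≤ (2 ^ (Nat.log 2 N + 1)) ^ 2 ^ m := Nat.pow_le_pow_left h1 _
    _ = 2 ^ (2 ^ m * (Nat.log 2 N + 1)) := by rw [← pow_mul, mul_comm]
    _ ≤ 2 ^ LL m N := Nat.pow_le_pow_right (by norm_num) (by unfold LL; omega)

lemma one_le_log {L : ℕ} (hL : 3 ≤ L) : (1 : ℝ) ≤ Real.log L := by
  rw [Real.le_log_iff_exp_le (by positivity)]
  have h1 := Real.exp_one_lt_d9
  have h2 : (3 : ℝ) ≤ L := by exact_mod_cast hL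
  linarith

/-- few large prime factors -/
lemma card_big {L k : ℕ} (hL : 3 ≤ L) (hk : 1 ≤ k) (hkL : k ≤ 2 ^ L) :
    ((k.primeFactors.filter fun z : ℕ => Real.sqrt L < (z : ℝ)).card : ℝ) ≤ 2 * (L / Real.log L) := by
  have hL3 : (3 : ℝ) ≤ L := by exact_mod_cast hL
  have hl := one_le_log hL
  set F := k.primeFactors.filter fun z : ℕ => Real.sqrt L < (z : ℝ) with hF
  have h1 : (Real.sqrt L) ^ F.card ≤ (2 : ℝ) ^ L := by
    calc (Real.sqrt L) ^ F.card = ∏ _z ∈ F, Real.sqrt L := by rw [Finset.prod_const]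
      _ ≤ ∏ z ∈ F, (z : ℝ) := by
          apply Finset.prod_le_prod
          · intro i _; positivity
          · intro i hi; exact (Finset.mem_filter.1 hi).2.le
      _ = ((∏ z ∈ F, z : ℕ) : ℝ) := by push_cast; rfl
      _ ≤ (k : ℝ) := by
          exact_mod_cast Nat.le_of_dvd hk ((Finset.prod_dvd_prod_of_subset _ _ _
            (Finset.filter_subset _ _)).trans (Nat.prod_primeFactors_dvd k))
      _ ≤ (2 : ℝ) ^ L := by exact_mod_cast hkL
  have h2 := Real.log_le_log (by positivity) h1
  rw [Real.log_pow, Real.log_pow, Real.log_sqrt (by positivity)] at h2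
  have h3 : Real.log 2 ≤ 1 := by
    have := Real.log_two_lt_d9
    linarith
  have h4 : (F.card : ℝ) * (Real.log L / 2) ≤ L := by
    calc (F.card : ℝ) * (Real.log L / 2) ≤ L * Real.log 2 := h2
      _ ≤ L * 1 := mul_le_mul_of_nonneg_left h3 (by linarith)
      _ = L := mul_one _
  rw [mul_div_assoc', le_div_iff₀ (by linarith)]
  linarith

lemma small_factor {L z : ℕ} (hL : 3 ≤ L) (hz : 2 ≤ z) :
    1 / (2 * Real.log L) ≤ 1 - (z : ℝ) ^ (-(1 / Real.log L)) := by
  have hl := one_le_log hL
  have hz' : (2 : ℝ) ≤ z := by exact_mod_cast hz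
  have hd0 : 0 ≤ 1 / Real.log L := by positivity
  have hd1 : 1 / Real.log L ≤ 1 := by rw [div_le_one (by linarith)]; exact hl
  have h1 : (z : ℝ) ^ (-(1 / Real.log L)) ≤ (2 : ℝ) ^ (-(1 / Real.log L)) :=
    Real.rpow_le_rpow_of_nonpos (by norm_num) hz' (by linarith)
  have h2 : (2 : ℝ) ^ (-(1 / Real.log L)) = (1 + (-1 / 2 : ℝ)) ^ (1 / Real.log L) := by
    rw [Real.rpow_neg (by norm_num), ← Real.inv_rpow (by norm_num)]
    norm_num
  have h3 := rpow_one_add_le_one_add_mul_self (s := (-1 / 2 : ℝ)) (by norm_num) hd0 hd1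
  rw [← h2] at h3
  have h4 : 1 / (2 * Real.log L) = 1 / Real.log L / 2 := by
    field_simp
  rw [h4]
  linarith

lemma big_factor {L z : ℕ} (hL : 3 ≤ L) (hz : Real.sqrt L < (z : ℝ)) :
    Real.exp (-2) ≤ 1 - (z : ℝ) ^ (-(1 / Real.log L)) := by
  have hl := one_le_log hL
  have hL3 : (3 : ℝ) ≤ L := by exact_mod_cast hL
  have hs : 0 < Real.sqrt L := Real.sqrt_pos.2 (by linarith)
  have hz0 : (0 : ℝ) < z := hs.trans hz
  have h1 : (z : ℝ) ^ (-(1 / Real.log L)) ≤ Real.exp (-(1 / 2)) := by
    rw [Real.rpow_def_of_pos hz0]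
    apply Real.exp_le_exp.2
    have h2 : Real.log L / 2 ≤ Real.log z := by
      rw [← Real.log_sqrt (by linarith)]
      exact Real.log_le_log hs hz.le
    rw [mul_neg, neg_le_neg_iff, mul_one_div, le_div_iff₀ (by linarith)]
    linarith
  have h3 : Real.exp (-(1 / 2)) ≤ 2 / 3 := by
    rw [Real.exp_neg]
    have := Real.add_one_le_exp (1 / 2 : ℝ)
    rw [inv_le_comm₀ (Real.exp_pos _) (by norm_num)]
    linarith
  have h4 : Real.exp (-2) ≤ 1 / 3 := by
    rw [Real.exp_neg]
    have := Real.add_one_le_exp (2 : ℝ)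
    rw [inv_le_comm₀ (Real.exp_pos _) (by norm_num)]
    linarith
  linarith

lemma log_sq_le {L : ℕ} (hL : 3 ≤ L) : (Real.log L) ^ 2 ≤ 16 * Real.sqrt L := by
  have hl := one_le_log hL
  have h1 := Real.log_le_rpow_div (x := (L : ℝ)) (Nat.cast_nonneg _)
    (show (0 : ℝ) < 1 / 4 by norm_num)
  have h2 : Real.log L ≤ 4 * (L : ℝ) ^ ((1 : ℝ) / 4) := by linarith
  calc (Real.log L) ^ 2 ≤ (4 * (L : ℝ) ^ ((1 : ℝ) / 4)) ^ 2 :=
        pow_le_pow_left₀ (by linarith) h2 2
    _ = 16 * ((L : ℝ) ^ ((1 : ℝ) / 4)) ^ 2 := by ring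
    _ = 16 * Real.sqrt L := by
        rw [← Real.rpow_natCast ((L : ℝ) ^ ((1 : ℝ) / 4)) 2, ← Real.rpow_mul (Nat.cast_nonneg _),
          Real.sqrt_eq_rpow]
        norm_num

/-- explicit lower bound of the weight -/
theorem WLX (m N n : ℕ) (hm : 1 ≤ m) (hn : 1 ≤ n) (hnN : n ≤ N) (E : Finset (ℕ × ℕ))
    (hE : E ⊆ Amb m n) :
    Real.exp (-(41 * m * (LL m N / Real.log (LL m N)))) ≤
      ∏ e ∈ E, ((1 - (e.2 : ℝ) ^ (-(1 / Real.log (LL m N)))) *
        ((e.2 : ℝ) ^ (-(1 / Real.log (LL m N)))) ^ val n e) := by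
  classical
  have hL : 3 ≤ LL m N := three_le_LL hm
  obtain ⟨L, hLd⟩ : ∃ L, L = LL m N := ⟨_, rfl⟩
  have hX := X_le m N
  rw [← hLd] at hL hX ⊢
  have hl := one_le_log hL
  have hL3 : (3 : ℝ) ≤ L := by exact_mod_cast hL
  set ℓ := Real.log L with hℓ
  set A : ℝ := L / ℓ with hA
  have hA0 : 0 ≤ A := by positivity
  have hm1 : (1 : ℝ) ≤ m := by exact_mod_cast hm
  rw [Finset.prod_mul_distrib]
  -- the second product
  have part1 : Real.exp (-(m * A)) ≤ ∏ e ∈ E, ((e.2 : ℝ) ^ (-(1 / ℓ))) ^ val n e := by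
    have e1 : ∀ e ∈ E, ((e.2 : ℝ) ^ (-(1 / ℓ))) ^ val n e
        = (((e.2 ^ val n e : ℕ)) : ℝ) ^ (-(1 / ℓ)) := by
      intro e _
      rw [Nat.cast_pow, ← Real.rpow_natCast, ← Real.rpow_natCast, ← Real.rpow_mul (by positivity),
        ← Real.rpow_mul (by positivity), mul_comm]
    rw [Finset.prod_congr rfl e1, Real.finsetProd_rpow _ _ (fun e _ => Nat.cast_nonneg _),
      ← Nat.cast_prod]
    have hP := wlb_prod hn hnN E hE
    have hP' : (((∏ e ∈ E, e.2 ^ val n e : ℕ)) : ℝ) ≤ (2 : ℝ) ^ (L * m) := by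
      have h1 : ∏ e ∈ E, e.2 ^ val n e ≤ 2 ^ (L * m) := by
        rw [pow_mul]
        exact hP.trans (Nat.pow_le_pow_left hX m)
      exact_mod_cast h1
    have hPpos : (0 : ℝ) < ((∏ e ∈ E, e.2 ^ val n e : ℕ) : ℝ) := by
      have : 0 < ∏ e ∈ E, e.2 ^ val n e :=
        Finset.prod_pos fun e he => pow_pos (wlb_mem (hE he)).2.pos _
      exact_mod_cast this
    rw [Real.rpow_def_of_pos hPpos]
    apply Real.exp_le_exp.2
    have h2 : Real.log (((∏ e ∈ E, e.2 ^ val n e : ℕ)) : ℝ) ≤ L * m := by
      refine (Real.log_le_log hPpos hP').trans ?_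
      rw [Real.log_pow]
      push_cast
      have h3 : Real.log 2 ≤ 1 := by
        have := Real.log_two_lt_d9
        linarith
      have h4 : (0 : ℝ) ≤ (L : ℝ) * m := by positivity
      nlinarith
    rw [mul_neg, neg_le_neg_iff, mul_one_div, hA, mul_div_assoc']
    apply div_le_div_of_nonneg_right _ (by linarith)
    linarith
  -- the first product
  have part2 : Real.exp (-(40 * m * A)) ≤ ∏ e ∈ E, (1 - (e.2 : ℝ) ^ (-(1 / ℓ))) := by
    rw [← Finset.prod_filter_mul_prod_filter_not E (fun e => Real.sqrt L < (e.2 : ℝ))]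
    have hbig : Real.exp (-(8 * m * A)) ≤
        ∏ e ∈ E.filter (fun e => Real.sqrt L < (e.2 : ℝ)), (1 - (e.2 : ℝ) ^ (-(1 / ℓ))) := by
      have hcard : ((E.filter (fun e => Real.sqrt L < (e.2 : ℝ))).card : ℝ) ≤ 4 * m * A := by
        have h1 : E.filter (fun e => Real.sqrt L < (e.2 : ℝ)) ⊆
            (range m).biUnion fun i =>
              (((it i n).primeFactors.filter fun z : ℕ => Real.sqrt L < (z : ℝ)) ∪
                ((it m n).primeFactors.filter fun z : ℕ => Real.sqrt L < (z : ℝ))).image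
                  fun z => (i, z) := by
          intro e he
          rw [Finset.mem_filter] at he
          have h2 := hE he.1
          unfold Amb at h2
          rw [Finset.mem_biUnion] at h2 ⊢
          obtain ⟨i, hi, h3⟩ := h2
          refine ⟨i, hi, ?_⟩
          rw [Finset.mem_image] at h3 ⊢
          obtain ⟨z, hz, rfl⟩ := h3
          refine ⟨z, ?_, rfl⟩
          rw [Finset.mem_union] at hz ⊢
          rcases hz with hz | hz
          · left; exact Finset.mem_filter.2 ⟨hz, he.2⟩
          · right; exact Finset.mem_filter.2 ⟨hz, he.2⟩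
        have h2 : ∀ j ≤ m, (((it j n).primeFactors.filter fun z : ℕ =>
            Real.sqrt L < (z : ℝ)).card : ℝ) ≤ 2 * A := by
          intro j hj
          apply card_big hL (it_pos hn j)
          refine (it_le hnN j).trans (le_trans ?_ hX)
          exact Nat.pow_le_pow_right (by omega) (Nat.pow_le_pow_right (by norm_num) hj)
        have h3 := (Finset.card_le_card h1).trans Finset.card_biUnion_le
        have h4 : ((E.filter (fun e => Real.sqrt L < (e.2 : ℝ))).card : ℝ) ≤
            ∑ i ∈ range m, (((((it i n).primeFactors.filter fun z : ℕ => Real.sqrt L < (z : ℝ)) ∪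
                ((it m n).primeFactors.filter fun z : ℕ => Real.sqrt L < (z : ℝ))).image
                  fun z => (i, z)).card : ℝ) := by exact_mod_cast h3
        refine h4.trans ?_
        have h5 : ∀ i ∈ range m,
            (((((it i n).primeFactors.filter fun z : ℕ => Real.sqrt L < (z : ℝ)) ∪
                ((it m n).primeFactors.filter fun z : ℕ => Real.sqrt L < (z : ℝ))).image
                  fun z => (i, z)).card : ℝ) ≤ 4 * A := by
          intro i hi
          have h6 : (((((it i n).primeFactors.filter fun z : ℕ => Real.sqrt L < (z : ℝ)) ∪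
                ((it m n).primeFactors.filter fun z : ℕ => Real.sqrt L < (z : ℝ))).image
                  fun z => (i, z)).card) ≤
              ((it i n).primeFactors.filter fun z : ℕ => Real.sqrt L < (z : ℝ)).card +
                ((it m n).primeFactors.filter fun z : ℕ => Real.sqrt L < (z : ℝ)).card :=
            Finset.card_image_le.trans (Finset.card_union_le _ _)
          have h7 := h2 i (Finset.mem_range.1 hi).le
          have h8 := h2 m le_rfl
          have h9 : (((((it i n).primeFactors.filter fun z : ℕ => Real.sqrt L < (z : ℝ)) ∪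
                ((it m n).primeFactors.filter fun z : ℕ => Real.sqrt L < (z : ℝ))).image
                  fun z => (i, z)).card : ℝ) ≤
              (((it i n).primeFactors.filter fun z : ℕ => Real.sqrt L < (z : ℝ)).card : ℝ) +
                (((it m n).primeFactors.filter fun z : ℕ => Real.sqrt L < (z : ℝ)).card : ℝ) := by
            exact_mod_cast h6
          linarith
        refine (Finset.sum_le_sum h5).trans ?_
        rw [Finset.sum_const, Finset.card_range, nsmul_eq_mul]
        linarith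
      calc Real.exp (-(8 * m * A)) ≤
            Real.exp (-2) ^ (E.filter (fun e => Real.sqrt L < (e.2 : ℝ))).card := by
            rw [← Real.exp_nat_mul]
            apply Real.exp_le_exp.2
            linarith
        _ = ∏ _e ∈ E.filter (fun e => Real.sqrt L < (e.2 : ℝ)), Real.exp (-2) := by
            rw [Finset.prod_const]
        _ ≤ _ := by
            apply Finset.prod_le_prod
            · intro e _; exact (Real.exp_pos _).le
            · intro e he; exact big_factor hL (Finset.mem_filter.1 he).2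
    have hsmall : Real.exp (-(32 * m * A)) ≤
        ∏ e ∈ E.filter (fun e => ¬ Real.sqrt L < (e.2 : ℝ)), (1 - (e.2 : ℝ) ^ (-(1 / ℓ))) := by
      have hcard : ((E.filter (fun e => ¬ Real.sqrt L < (e.2 : ℝ))).card : ℝ)
          ≤ m * Real.sqrt L := by
        have h1 : E.filter (fun e => ¬ Real.sqrt L < (e.2 : ℝ)) ⊆
            range m ×ˢ Icc 1 ⌊Real.sqrt L⌋₊ := by
          intro e he
          rw [Finset.mem_filter] at he
          have h2 := wlb_mem (hE he.1)
          rw [Finset.mem_product, Finset.mem_range, Finset.mem_Icc]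
          refine ⟨h2.1, h2.2.pos, Nat.le_floor (not_lt.1 he.2)⟩
        have h2 := Finset.card_le_card h1
        rw [Finset.card_product, Finset.card_range, Nat.card_Icc] at h2
        calc ((E.filter (fun e => ¬ Real.sqrt L < (e.2 : ℝ))).card : ℝ)
            ≤ ((m * (⌊Real.sqrt L⌋₊ + 1 - 1) : ℕ) : ℝ) := by exact_mod_cast h2
          _ = m * (⌊Real.sqrt L⌋₊ : ℝ) := by push_cast [Nat.add_sub_cancel]; ring
          _ ≤ m * Real.sqrt L := by
              apply mul_le_mul_of_nonneg_left _ (by linarith)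
              exact Nat.floor_le (Real.sqrt_nonneg _)
      have hbase : Real.exp (-(2 * ℓ)) ≤ 1 / (2 * ℓ) := by
        rw [Real.exp_neg, one_div]
        apply inv_anti₀ (by linarith)
        have := Real.add_one_le_exp (2 * ℓ)
        linarith
      have h16 : Real.sqrt L * (2 * ℓ) ≤ 32 * A := by
        rw [hA, mul_div_assoc', le_div_iff₀ (by linarith)]
        have h1 := log_sq_le hL
        have h2 : Real.sqrt L * Real.sqrt L = L := Real.mul_self_sqrt (by linarith)
        have h3 : 0 ≤ Real.sqrt L := Real.sqrt_nonneg _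
        calc Real.sqrt L * (2 * ℓ) * ℓ = 2 * (Real.sqrt L * ℓ ^ 2) := by ring
          _ ≤ 2 * (Real.sqrt L * (16 * Real.sqrt L)) := by
              apply mul_le_mul_of_nonneg_left _ (by norm_num)
              exact mul_le_mul_of_nonneg_left h1 h3
          _ = 32 * (Real.sqrt L * Real.sqrt L) := by ring
          _ = 32 * L := by rw [h2]
      calc Real.exp (-(32 * m * A)) ≤
            Real.exp (-(2 * ℓ)) ^ (E.filter (fun e => ¬ Real.sqrt L < (e.2 : ℝ))).card := by
            rw [← Real.exp_nat_mul]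
            apply Real.exp_le_exp.2
            have h1 : ((E.filter (fun e => ¬ Real.sqrt L < (e.2 : ℝ))).card : ℝ) * (2 * ℓ)
                ≤ m * Real.sqrt L * (2 * ℓ) := mul_le_mul_of_nonneg_right hcard (by linarith)
            have h2 : m * Real.sqrt L * (2 * ℓ) ≤ 32 * m * A := by
              calc m * Real.sqrt L * (2 * ℓ) = m * (Real.sqrt L * (2 * ℓ)) := by ring
                _ ≤ m * (32 * A) := mul_le_mul_of_nonneg_left h16 (by linarith)
                _ = 32 * m * A := by ring
            linarith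
        _ = ∏ _e ∈ E.filter (fun e => ¬ Real.sqrt L < (e.2 : ℝ)), Real.exp (-(2 * ℓ)) := by
            rw [Finset.prod_const]
        _ ≤ _ := by
            apply Finset.prod_le_prod
            · intro e _; exact (Real.exp_pos _).le
            · intro e he
              have h1 := (wlb_mem (hE (Finset.mem_filter.1 he).1)).2.two_le
              exact hbase.trans (small_factor hL h1)
    calc Real.exp (-(40 * m * A)) = Real.exp (-(8 * m * A)) * Real.exp (-(32 * m * A)) := by
          rw [← Real.exp_add]; congr 1; ring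
      _ ≤ _ := mul_le_mul hbig hsmall (Real.exp_pos _).le
          (le_trans (Real.exp_pos _).le hbig)
  calc Real.exp (-(41 * m * A)) = Real.exp (-(40 * m * A)) * Real.exp (-(m * A)) := by
        rw [← Real.exp_add]; congr 1; ring
    _ ≤ _ := mul_le_mul part2 part1 (Real.exp_pos _).le (le_trans (Real.exp_pos _).le part2)

end Pool.PWS
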