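import Pool.Agent.H38.PWS.Bound

/-!
# Final form of the square root bound
-/

set_option autoImplicit false

namespace Pool.PWS

open ArithmeticFunction Finset Pool.MKP

lemma convert (m N : ℕ) (hm : 1 ≤ m) (hN : 3 ≤ N) :
    (LL m N : ℝ) / Real.log (LL m N) ≤ 2 ^ (m + 3) * (Real.log N / Real.log (Real.log N)) := by
  have hN3 : (3 : ℝ) ≤ N := by exact_mod_cast hN
  have he := Real.exp_one_lt_d9
  have hlog1 : 1 < Real.log N := by
    rw [Real.lt_log_iff_exp_lt (by linarith)]
    linarith
  have hll : 0 < Real.log (Real.log N) := Real.log_pos hlog1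
  have h1 := (LLB m N (by omega)).2
  have hL : 3 ≤ LL m N := three_le_LL hm
  have hL3 : (3 : ℝ) ≤ LL m N := by exact_mod_cast hL
  have h2 : (LL m N : ℝ) ≤ 2 ^ (m + 3) * Real.log N := by
    refine h1.trans ?_
    have h3 : (0 : ℝ) < 2 ^ (m + 2) := by positivity
    rw [show (2 : ℝ) ^ (m + 3) = 2 ^ (m + 2) * 2 by ring]
    nlinarith
  set B : ℝ := 2 ^ (m + 3) * Real.log N with hB
  have hanti := Real.log_div_self_antitoneOn (show Real.exp 1 ≤ (LL m N : ℝ) by linarith)
    (show Real.exp 1 ≤ B by linarith) h2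
  simp only at hanti
  have hlL : 0 < Real.log (LL m N) := by
    have := one_le_log hL
    linarith
  have hBpos : 0 < B := by linarith
  have hlB : Real.log (Real.log N) ≤ Real.log B := by
    apply Real.log_le_log (by linarith)
    have h4 : (1 : ℝ) ≤ 2 ^ (m + 3) := one_le_pow₀ (by norm_num)
    rw [hB]
    nlinarith
  have hlB0 : 0 < Real.log B := by linarith
  calc (LL m N : ℝ) / Real.log (LL m N) ≤ B / Real.log B := by
        rw [div_le_div_iff₀ hBpos (by linarith)] at hanti
        rw [div_le_div_iff₀ hlL hlB0]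
        linarith
    _ ≤ B / Real.log (Real.log N) := div_le_div_of_nonneg_left hBpos.le hll hlB
    _ = _ := by rw [hB]; ring

/-- integers `n` up to `N` with `n ≤ H * gcd n (it m n)` -/
theorem quot_bound (m : ℕ) (hm : 1 ≤ m) : ∃ C : ℝ, 0 < C ∧ ∀ (N : ℕ) (H : ℝ), 3 ≤ N → 1 ≤ H →
    (((Icc 1 N).filter fun n : ℕ => (n : ℝ) ≤ H * Nat.gcd n (it m n)).card : ℝ)
      ≤ Real.sqrt (H * N) * Real.exp (C * (Real.log N / Real.log (Real.log N))) := by
  classical
  obtain ⟨C, hC, h⟩ := boundL m hm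
  refine ⟨9 + C * 2 ^ (m + 3), by positivity, ?_⟩
  intro N H hN hH
  have hH0 : 0 < H := by linarith
  have hsH : 0 < Real.sqrt H := Real.sqrt_pos.2 hH0
  set Φ : ℝ := Real.exp (C * (LL m N / Real.log (LL m N))) with hΦ
  have hΦ0 : 0 < Φ := Real.exp_pos _
  have key : ∀ M : ℕ, M ≤ N →
      (((Icc 1 M).filter fun n : ℕ => (n : ℝ) ≤ H * Nat.gcd n (it m n)).card : ℝ)
        ≤ 10 * Φ * (Real.sqrt H * Real.sqrt M) := by
    intro M
    induction M using Nat.strong_induction_on with
    | _ M ih =>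
      intro hMN
      rcases Nat.eq_zero_or_pos M with h0 | hM
      · rw [h0]; simp
      have hM' : (0 : ℝ) < M := by exact_mod_cast hM
      obtain ⟨D, hD⟩ : ∃ D, D = ⌈(M : ℝ) / (2 * H)⌉₊ := ⟨_, rfl⟩
      have hDx : (M : ℝ) / (2 * H) ≤ D := by rw [hD]; exact Nat.le_ceil _
      have hDpos : 1 ≤ D := by
        rw [hD]
        exact Nat.ceil_pos.2 (by positivity)
      have hsub : ((Icc 1 M).filter fun n : ℕ => (n : ℝ) ≤ H * Nat.gcd n (it m n)) ⊆
          ((Icc 1 (M / 2)).filter fun n : ℕ => (n : ℝ) ≤ H * Nat.gcd n (it m n)) ∪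
            ((Icc 1 M).filter fun n => D ≤ Nat.gcd n (it m n)) := by
        intro n hn
        rw [Finset.mem_filter, Finset.mem_Icc] at hn
        rw [Finset.mem_union, Finset.mem_filter, Finset.mem_filter, Finset.mem_Icc,
          Finset.mem_Icc]
        by_cases h1 : n ≤ M / 2
        · left; exact ⟨⟨hn.1.1, h1⟩, hn.2⟩
        · right
          refine ⟨hn.1, ?_⟩
          rw [hD, Nat.ceil_le, div_le_iff₀ (by positivity)]
          have h2 : M ≤ 2 * n := by omega
          have h3 : (M : ℝ) ≤ 2 * n := by exact_mod_cast h2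
          calc (M : ℝ) ≤ 2 * n := h3
            _ ≤ 2 * (H * Nat.gcd n (it m n)) := mul_le_mul_of_nonneg_left hn.2 (by norm_num)
            _ = _ := by ring
      have hcard : (((Icc 1 M).filter fun n : ℕ => (n : ℝ) ≤ H * Nat.gcd n (it m n)).card : ℝ) ≤
          (((Icc 1 (M / 2)).filter fun n : ℕ => (n : ℝ) ≤ H * Nat.gcd n (it m n)).card : ℝ) +
            (((Icc 1 M).filter fun n => D ≤ Nat.gcd n (it m n)).card : ℝ) := by
        exact_mod_cast (Finset.card_le_card hsub).trans (Finset.card_union_le _ _)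
      have h2 := ih (M / 2) (by omega) (by omega)
      have h3 := h N M D (by omega) hMN hDpos
      rw [← hΦ] at h3
      have hsM : 0 < Real.sqrt M := Real.sqrt_pos.2 hM'
      have hsq : Real.sqrt M * Real.sqrt M = M := Real.mul_self_sqrt hM'.le
      have h4 : Real.sqrt ((M / 2 : ℕ) : ℝ) ≤ 3 / 4 * Real.sqrt M := by
        rw [show (3 : ℝ) / 4 * Real.sqrt M = Real.sqrt ((3 / 4) ^ 2 * M) by
          rw [Real.sqrt_mul (by norm_num), Real.sqrt_sq (by norm_num)]]
        apply Real.sqrt_le_sqrt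
        have : ((M / 2 : ℕ) : ℝ) ≤ (M : ℝ) / 2 := Nat.cast_div_le
        linarith
      have h5 : Φ * M / Real.sqrt (D : ℝ) ≤ 2 * Φ * (Real.sqrt H * Real.sqrt M) := by
        have hD0 : (0 : ℝ) < (D : ℝ) := by exact_mod_cast hDpos
        rw [div_le_iff₀ (Real.sqrt_pos.2 hD0)]
        have h6 : Real.sqrt M ≤ 2 * (Real.sqrt H * Real.sqrt (D : ℝ)) := by
          rw [show (2 : ℝ) * (Real.sqrt H * Real.sqrt (D : ℝ)) =
            Real.sqrt (2 ^ 2 * (H * (D : ℝ))) by
            rw [Real.sqrt_mul (by norm_num), Real.sqrt_sq (by norm_num), Real.sqrt_mul hH0.le]]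
          apply Real.sqrt_le_sqrt
          rw [div_le_iff₀ (by positivity)] at hDx
          nlinarith
        calc Φ * M = Φ * Real.sqrt M * Real.sqrt M := by rw [mul_assoc, hsq]
          _ ≤ Φ * Real.sqrt M * (2 * (Real.sqrt H * Real.sqrt (D : ℝ))) :=
              mul_le_mul_of_nonneg_left h6 (by positivity)
          _ = _ := by ring
      calc (((Icc 1 M).filter fun n : ℕ => (n : ℝ) ≤ H * Nat.gcd n (it m n)).card : ℝ)
          ≤ 10 * Φ * (Real.sqrt H * Real.sqrt ((M / 2 : ℕ) : ℝ)) +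
              2 * Φ * (Real.sqrt H * Real.sqrt M) := by
            linarith
        _ ≤ 10 * Φ * (Real.sqrt H * (3 / 4 * Real.sqrt M)) +
              2 * Φ * (Real.sqrt H * Real.sqrt M) := by
            have : 10 * Φ * (Real.sqrt H * Real.sqrt ((M / 2 : ℕ) : ℝ)) ≤
                10 * Φ * (Real.sqrt H * (3 / 4 * Real.sqrt M)) :=
              mul_le_mul_of_nonneg_left (mul_le_mul_of_nonneg_left h4 hsH.le) (by positivity)
            linarith
        _ ≤ 10 * Φ * (Real.sqrt H * Real.sqrt M) := by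
            have : 0 < Φ * (Real.sqrt H * Real.sqrt M) := mul_pos hΦ0 (mul_pos hsH hsM)
            nlinarith
  refine (key N le_rfl).trans ?_
  have hN3 : (3 : ℝ) ≤ N := by exact_mod_cast hN
  have he := Real.exp_one_lt_d9
  have hlog1 : 1 < Real.log N := by
    rw [Real.lt_log_iff_exp_lt (by linarith)]
    linarith
  have hll : 0 < Real.log (Real.log N) := Real.log_pos hlog1
  have hle : Real.log (Real.log N) ≤ Real.log N := Real.log_le_self (by linarith)
  have hone : 1 ≤ Real.log N / Real.log (Real.log N) := by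
    rw [le_div_iff₀ hll, one_mul]; exact hle
  have h10 : (10 : ℝ) ≤ Real.exp (9 * (Real.log N / Real.log (Real.log N))) := by
    have h1 := Real.add_one_le_exp (9 * (Real.log N / Real.log (Real.log N)))
    linarith
  have hΦ1 : Φ ≤ Real.exp (C * 2 ^ (m + 3) * (Real.log N / Real.log (Real.log N))) := by
    apply Real.exp_le_exp.2
    calc C * ((LL m N : ℝ) / Real.log (LL m N))
        ≤ C * (2 ^ (m + 3) * (Real.log N / Real.log (Real.log N))) :=
          mul_le_mul_of_nonneg_left (convert m N hm hN) hC.le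
      _ = _ := by ring
  rw [Real.sqrt_mul hH0.le]
  calc 10 * Φ * (Real.sqrt H * Real.sqrt N) = Real.sqrt H * Real.sqrt N * (10 * Φ) := by ring
    _ ≤ Real.sqrt H * Real.sqrt N * (Real.exp (9 * (Real.log N / Real.log (Real.log N))) *
        Real.exp (C * 2 ^ (m + 3) * (Real.log N / Real.log (Real.log N)))) := by
        apply mul_le_mul_of_nonneg_left _ (by positivity)
        exact mul_le_mul h10 hΦ1 hΦ0.le (Real.exp_pos _).le
    _ = _ := by
        rw [← Real.exp_add]
        congr 2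
        ring

end Pool.PWS
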