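import Pool.Agent.H38.PWS.Stmts

/-!
# Small primes generate everything

If `n` divides `h * σ^m n` then all primes of `n` are generated by the primes at most `Y` on all
levels together with the primes of `h` on level `0`.
-/

set_option autoImplicit false

namespace Pool.PWS

open ArithmeticFunction Finset Pool.MKP

/-- the generating set: primes at most `Y` on all levels, primes of `h` on level `0` -/
def Gy (m Y h : ℕ) : Finset (ℕ × ℕ) :=
  ((range m) ×ˢ ((Icc 1 Y).filter Nat.Prime)) ∪ (h.primeFactors.image fun p => (0, p))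

lemma coprime_prod_pow {F : Finset ℕ} {A : ℕ} (v : ℕ → ℕ) (hF : ∀ z ∈ F, z.Prime)
    (h : ∀ z ∈ F, ¬ z ∣ A) : Nat.Coprime (∏ z ∈ F, z ^ v z) A := by
  apply Nat.Coprime.prod_left
  intro z hz
  apply Nat.Coprime.pow_left
  exact ((hF z hz).coprime_iff_not_dvd).2 (h z hz)

lemma part_dvd {k : ℕ} (hk : k ≠ 0) (F : Finset ℕ) (hF : F ⊆ k.primeFactors) :
    ∏ z ∈ F, z ^ k.factorization z ∣ k := by
  calc ∏ z ∈ F, z ^ k.factorization z ∣ ∏ z ∈ k.primeFactors, z ^ k.factorization z :=
        Finset.prod_dvd_prod_of_subset _ _ _ hF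
    _ = k := Nat.prod_factorization_pow_eq_self hk

lemma sigma_pow_mul {z : ℕ} (hz : z.Prime) (v : ℕ) :
    (sigma 1 (z ^ v) : ℕ) * (z - 1) ≤ z ^ v * z := by
  rw [sigma_one_apply_prime_pow hz]
  have h1 := Nat.geomSum_eq hz.two_le (v + 1)
  have hz1 : 0 < z - 1 := by have := hz.two_le; omega
  rw [h1, Nat.div_mul_cancel (Nat.sub_one_dvd_pow_sub_one z (v + 1)), pow_succ]
  exact Nat.sub_le _ _

lemma le_sigma_pow {z : ℕ} (hz : z.Prime) (v : ℕ) : z ^ v ≤ sigma 1 (z ^ v) := by
  rw [sigma_one_apply_prime_pow hz]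
  exact Finset.single_le_sum (f := fun i => z ^ i) (fun i _ => Nat.zero_le _)
    (Finset.mem_range.2 (Nat.lt_succ_self v))

lemma lt_sigma_pow {z : ℕ} (hz : z.Prime) {v : ℕ} (hv : 1 ≤ v) : z ^ v < sigma 1 (z ^ v) := by
  rw [sigma_one_apply_prime_pow hz, Finset.sum_range_succ]
  have : 0 < ∑ i ∈ range v, z ^ i :=
    Finset.sum_pos (fun i _ => pow_pos hz.pos _) ⟨0, Finset.mem_range.2 (by omega)⟩
  omega

theorem reach (m n h Y L : ℕ) (hm : 1 ≤ m) (hn : 1 ≤ n) (hh : 1 ≤ h) (hdvd : n ∣ h * it m n)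
    (hL : ∀ i < m, (it i n).primeFactors.card ≤ L) (hY : 2 * m * L ≤ Y) (hY1 : 1 ≤ Y) :
    ∀ p ∈ n.primeFactors, Rch m n (Gy m Y h) (0, p) := by
  classical
  by_contra hcon
  obtain ⟨p, hp⟩ := not_forall.1 hcon
  obtain ⟨hp, hpS⟩ := Classical.not_imp.1 hp
  have hpos : ∀ i, 0 < it i n := fun i => it_pos hn i
  obtain ⟨F, hF⟩ : ∃ F : ℕ → Finset ℕ, F = fun i =>
      (it i n).primeFactors.filter (fun z => ¬ Rch m n (Gy m Y h) (i, z)) := ⟨_, rfl⟩
  have memF : ∀ i z, z ∈ F i ↔ z ∈ (it i n).primeFactors ∧ ¬ Rch m n (Gy m Y h) (i, z) := by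
    intro i z; rw [hF, Finset.mem_filter]
  have hFsub : ∀ i, F i ⊆ (it i n).primeFactors := fun i z hz => ((memF i z).1 hz).1
  have hFp : ∀ i, ∀ z ∈ F i, z.Prime := fun i z hz => Nat.prime_of_mem_primeFactors (hFsub i hz)
  obtain ⟨U, hU⟩ : ∃ U : ℕ → ℕ, U = fun i => ∏ z ∈ F i, z ^ (it i n).factorization z := ⟨_, rfl⟩
  obtain ⟨B, hB⟩ : ∃ U : ℕ → ℕ, U = fun i => ∏ z ∈ F i, sigma 1 (z ^ (it i n).factorization z) :=
    ⟨_, rfl⟩
  obtain ⟨A, hA⟩ : ∃ U : ℕ → ℕ, U = fun i => ∏ z ∈ (it i n).primeFactors.filter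
      (fun z => Rch m n (Gy m Y h) (i, z)), sigma 1 (z ^ (it i n).factorization z) := ⟨_, rfl⟩
  have hAB : ∀ i, it (i + 1) n = A i * B i := by
    intro i
    rw [it_succ, sigma_prod (hpos i).ne', hA, hB, hF]
    exact (Finset.prod_filter_mul_prod_filter_not _ _ _).symm
  -- a prime of `A i` is known on the next level
  have hAdvd : ∀ i z, z.Prime → z ∣ A i → Rch m n (Gy m Y h) (nx m i, z) := by
    intro i z hz hzA
    rw [hA] at hzA
    obtain ⟨w, hw, hzw⟩ := (Prime.dvd_finsetProd_iff hz.prime _).1 hzA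
    rw [Finset.mem_filter] at hw
    refine Rch.step hw.2 ?_
    unfold out
    rw [Finset.mem_image]
    refine ⟨z, ?_, rfl⟩
    rw [Nat.mem_primeFactors]
    refine ⟨hz, hzw, ?_⟩
    exact (sigma_pos' (pow_pos (Nat.prime_of_mem_primeFactors hw.1).pos _)).ne'
  have hUB : ∀ i, i + 1 < m → U (i + 1) ∣ B i := by
    intro i hi
    have h1 : U (i + 1) ∣ it (i + 1) n := by
      rw [hU]; exact part_dvd (hpos _).ne' _ (hFsub _)
    have h2 : Nat.Coprime (U (i + 1)) (A i) := by
      rw [hU]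
      apply coprime_prod_pow _ (hFp _)
      intro z hz hzA
      have h3 := hAdvd i z (hFp _ z hz) hzA
      have h4 : nx m i = i + 1 := by unfold nx; rw [if_neg (by omega)]
      rw [h4] at h3
      exact ((memF _ z).1 hz).2 h3
    rw [hAB i] at h1
    exact h2.dvd_of_dvd_mul_left h1
  obtain ⟨m', hm'⟩ : ∃ m', m = m' + 1 := ⟨m - 1, by omega⟩
  have hUB0 : U 0 ∣ B m' := by
    have h1 : U 0 ∣ it m n := by
      have h2 : U 0 ∣ h * it m n := by
        have : U 0 ∣ n := by
          rw [hU]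
          exact part_dvd (k := it 0 n) (hpos 0).ne' _ (hFsub 0)
        exact this.trans hdvd
      have h3 : Nat.Coprime (U 0) h := by
        rw [hU]
        apply coprime_prod_pow _ (hFp _)
        intro z hz hzh
        apply ((memF _ z).1 hz).2
        apply Rch.base
        unfold Gy
        apply Finset.mem_union_right
        rw [Finset.mem_image]
        exact ⟨z, Nat.mem_primeFactors.2 ⟨hFp _ z hz, hzh, by omega⟩, rfl⟩
      exact h3.dvd_of_dvd_mul_left h2
    have h2 : Nat.Coprime (U 0) (A m') := by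
      rw [hU]
      apply coprime_prod_pow _ (hFp _)
      intro z hz hzA
      have h3 := hAdvd m' z (hFp _ z hz) hzA
      have h4 : nx m m' = 0 := by unfold nx; rw [if_pos hm'.symm]
      rw [h4] at h3
      exact ((memF _ z).1 hz).2 h3
    rw [hm', hAB m'] at h1
    exact h2.dvd_of_dvd_mul_left h1
  have hUpos : ∀ i, 0 < U i := by
    intro i
    rw [hU]
    exact Finset.prod_pos fun z hz => pow_pos (hFp i z hz).pos _
  have hBpos : ∀ i, 0 < B i := by
    intro i
    rw [hB]
    exact Finset.prod_pos fun z hz => sigma_pos' (pow_pos (hFp i z hz).pos _)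
  have hdvdall : ∏ i ∈ range m, U i ∣ ∏ i ∈ range m, B i := by
    rw [hm', Finset.prod_range_succ', Finset.prod_range_succ]
    apply mul_dvd_mul _ hUB0
    apply Finset.prod_dvd_prod_of_dvd
    intro i hi
    exact hUB i (by have := Finset.mem_range.1 hi; omega)
  -- strict inequality
  have hUleB : ∀ i, U i ≤ B i := by
    intro i
    rw [hU, hB]
    exact Finset.prod_le_prod' fun z hz => le_sigma_pow (hFp i z hz) _
  have hlt0 : U 0 < B 0 := by
    rw [hU, hB]
    apply Finset.prod_lt_prod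
    · intro z hz; exact pow_pos (hFp 0 z hz).pos _
    · intro z hz; exact le_sigma_pow (hFp 0 z hz) _
    · refine ⟨p, (memF 0 p).2 ⟨hp, hpS⟩, ?_⟩
      apply lt_sigma_pow (Nat.prime_of_mem_primeFactors hp)
      exact (Nat.prime_of_mem_primeFactors hp).factorization_pos_of_dvd (hpos 0).ne'
        (Nat.dvd_of_mem_primeFactors hp)
  have hlt : ∏ i ∈ range m, U i < ∏ i ∈ range m, B i := by
    apply Finset.prod_lt_prod
    · intro i _; exact hUpos i
    · intro i _; exact hUleB i
    · exact ⟨0, Finset.mem_range.2 (by omega), hlt0⟩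
  -- upper bound
  have hY0 : (0 : ℝ) < Y := by exact_mod_cast hY1
  have hbound : ∀ i < m, (B i : ℝ) ≤ U i * (1 + 1 / (Y : ℝ)) ^ L := by
    intro i hi
    have h1 : (B i : ℝ) ≤ ∏ z ∈ F i, (((z ^ (it i n).factorization z : ℕ) : ℝ) *
        (1 + 1 / (Y : ℝ))) := by
      rw [hB]
      push_cast
      apply Finset.prod_le_prod
      · intro z _; positivity
      · intro z hz
        have hzp := hFp i z hz
        have hzY : Y < z := by
          by_contra hzY
          apply ((memF i z).1 hz).2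
          apply Rch.base
          unfold Gy
          apply Finset.mem_union_left
          rw [Finset.mem_product, Finset.mem_range, Finset.mem_filter, Finset.mem_Icc]
          exact ⟨hi, ⟨hzp.pos, not_lt.1 hzY⟩, hzp⟩
        have h2 := sigma_pow_mul hzp ((it i n).factorization z)
        have h3 : ((sigma 1 (z ^ (it i n).factorization z) : ℕ) : ℝ) * ((z : ℝ) - 1) ≤
            (z : ℝ) ^ (it i n).factorization z * z := by
          have h4 : (((z - 1 : ℕ)) : ℝ) = (z : ℝ) - 1 := by
            rw [Nat.cast_sub hzp.one_le]; simp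
          rw [← h4]
          exact_mod_cast h2
        have hz1 : (Y : ℝ) ≤ (z : ℝ) - 1 := by
          have : Y + 1 ≤ z := hzY
          have h5 : (Y : ℝ) + 1 ≤ z := by exact_mod_cast this
          linarith
        have hz2 : 0 < (z : ℝ) - 1 := by linarith
        have h6 : ((sigma 1 (z ^ (it i n).factorization z) : ℕ) : ℝ) ≤
            (z : ℝ) ^ (it i n).factorization z * (z / ((z : ℝ) - 1)) := by
          rw [mul_div_assoc', le_div_iff₀ hz2]
          exact h3
        have h7 : (z : ℝ) / ((z : ℝ) - 1) ≤ 1 + 1 / Y := by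
          have : (z : ℝ) / ((z : ℝ) - 1) = 1 + 1 / ((z : ℝ) - 1) := by
            field_simp
            ring
          rw [this]
          have := one_div_le_one_div_of_le hY0 hz1
          linarith
        exact h6.trans (mul_le_mul_of_nonneg_left h7 (by positivity))
    refine h1.trans ?_
    rw [Finset.prod_mul_distrib, Finset.prod_const]
    have h8 : (∏ z ∈ F i, ((z ^ (it i n).factorization z : ℕ) : ℝ)) = (U i : ℝ) := by
      rw [hU]; push_cast; rfl
    rw [h8]
    apply mul_le_mul_of_nonneg_left _ (Nat.cast_nonneg _)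
    apply pow_le_pow_right₀
    · have : 0 < 1 / (Y : ℝ) := by positivity
      linarith
    · exact (Finset.card_le_card (hFsub i)).trans (hL i hi)
  have hup : ((∏ i ∈ range m, B i : ℕ) : ℝ) < 2 * ((∏ i ∈ range m, U i : ℕ) : ℝ) := by
    have h1 : ((∏ i ∈ range m, B i : ℕ) : ℝ) ≤
        ((∏ i ∈ range m, U i : ℕ) : ℝ) * ((1 + 1 / (Y : ℝ)) ^ L) ^ m := by
      push_cast
      calc ∏ i ∈ range m, (B i : ℝ) ≤ ∏ i ∈ range m, ((U i : ℝ) * (1 + 1 / (Y : ℝ)) ^ L) := by
            apply Finset.prod_le_prod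
            · intro i _; positivity
            · intro i hi; exact hbound i (Finset.mem_range.1 hi)
        _ = _ := by rw [Finset.prod_mul_distrib, Finset.prod_const, Finset.card_range]
    have h2 : ((1 + 1 / (Y : ℝ)) ^ L) ^ m ≤ Real.exp (1 / 2) := by
      rw [← pow_mul]
      have h3 : 1 + 1 / (Y : ℝ) ≤ Real.exp (1 / Y) := by
        have := Real.add_one_le_exp (1 / (Y : ℝ))
        linarith
      calc (1 + 1 / (Y : ℝ)) ^ (L * m) ≤ Real.exp (1 / Y) ^ (L * m) :=
            pow_le_pow_left₀ (by positivity) h3 _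
        _ = Real.exp (((L * m : ℕ) : ℝ) * (1 / Y)) := by rw [← Real.exp_nat_mul]
        _ ≤ Real.exp (1 / 2) := by
            apply Real.exp_le_exp.2
            rw [mul_one_div, div_le_div_iff₀ hY0 (by norm_num)]
            have h4 : L * m * 2 ≤ 1 * Y := by nlinarith
            exact_mod_cast h4
    have h5 : Real.exp (1 / 2) < 2 := by
      have h6 : Real.exp (1 / 2) * Real.exp (1 / 2) = Real.exp 1 := by
        rw [← Real.exp_add]; norm_num
      have h7 := Real.exp_one_lt_d9
      have h8 := Real.exp_pos (1 / 2)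
      nlinarith
    have h9 : (0 : ℝ) < ((∏ i ∈ range m, U i : ℕ) : ℝ) := by
      have : 0 < ∏ i ∈ range m, U i := Finset.prod_pos fun i _ => hUpos i
      exact_mod_cast this
    calc ((∏ i ∈ range m, B i : ℕ) : ℝ) ≤
        ((∏ i ∈ range m, U i : ℕ) : ℝ) * ((1 + 1 / (Y : ℝ)) ^ L) ^ m := h1
      _ ≤ ((∏ i ∈ range m, U i : ℕ) : ℝ) * Real.exp (1 / 2) :=
          mul_le_mul_of_nonneg_left h2 h9.le
      _ < ((∏ i ∈ range m, U i : ℕ) : ℝ) * 2 := mul_lt_mul_of_pos_left h5 h9
      _ = _ := by ring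
  obtain ⟨c, hc⟩ := hdvdall
  have hup' : ∏ i ∈ range m, B i < 2 * ∏ i ∈ range m, U i := by exact_mod_cast hup
  have hUall : 0 < ∏ i ∈ range m, U i := Finset.prod_pos fun i _ => hUpos i
  rw [hc] at hup' hlt
  have hc2 : c < 2 := by
    by_contra h
    have h1 : 2 ≤ c := by omega
    have := Nat.mul_le_mul_left (∏ i ∈ range m, U i) h1
    nlinarith
  have hc1 : 1 < c := by
    by_contra h
    have h1 : c ≤ 1 := by omega
    have := Nat.mul_le_mul_left (∏ i ∈ range m, U i) h1
    nlinarith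
  omega

end Pool.PWS
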