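import Pool.Agent.H38.MKP.Basic

/-!
# Square root bound for numbers which divide an iterate of their sum of divisors

MP_83fa19_nt.  Target: for all `m` and `ε` the number of `n` up to `N` with
`gcd n (σ^m n)` at least `D` is at most `C N^(1+ε) / √D`; in particular at most `C N^(1/2+ε)` of
them divide `σ^m n`.

Idea: an element is a pair `(i, z)`, level `i < m` and prime `z`; its value at `n` is the exponent
of `z` in `σ^i n`.  An element `(i, w)` with value `f` produces the elements `(i + 1, z)`, `z` a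
prime factor of `σ (w ^ f)` (level `m` is level `0`).  A number `n` is determined by a generating
set `G` of elements together with the values of the elements in the closure of `G`; the values
cost only `N ^ ε` (row `TRE`), and a generating set costs at most `√(N * n')` (row `GEN`).
-/

set_option autoImplicit false

namespace Pool.PWS

open ArithmeticFunction Finset Pool.MKP

/-! ## Definitions.  `Pool.MKP.it j n` is the iterate number `j` of the sum of divisors at `n`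
(`it_zero`, `it_succ`, `it_pos`, `it_le`, `sigma_prod`, `sigma_pow_lt`, `sigma_prime`,
`omega_le_log`, `prime_dvd_sigma` are in `Pool.Agent.H38.MKP.Basic`). -/

/-- value of the element `e` at `n`: exponent of the prime `e.2` in the iterate number `e.1` -/
def val (n : ℕ) (e : ℕ × ℕ) : ℕ := (it e.1 n).factorization e.2

/-- cyclic successor of a level -/
def nx (m i : ℕ) : ℕ := if i + 1 = m then 0 else i + 1

/-- the elements produced by the element `e` with value `f` -/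
def out (m : ℕ) (e : ℕ × ℕ) (f : ℕ) : Finset (ℕ × ℕ) :=
  ((sigma 1 (e.2 ^ f)).primeFactors).image fun z => (nx m e.1, z)

/-- closure of the set `G` of elements -/
inductive Rch (m n : ℕ) (G : Finset (ℕ × ℕ)) : ℕ × ℕ → Prop
  | base {e : ℕ × ℕ} : e ∈ G → Rch m n G e
  | step {e e' : ℕ × ℕ} : Rch m n G e → e' ∈ out m e (val n e) → Rch m n G e'

/-- ambient finite set of elements -/
def Amb (m n : ℕ) : Finset (ℕ × ℕ) :=
  (range m).biUnion fun i =>
    ((it i n).primeFactors ∪ (it m n).primeFactors).image fun z => (i, z)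

open Classical in
/-- the numbers up to `N` which are generated by `G` -/
noncomputable def Cls (m N : ℕ) (G : Finset (ℕ × ℕ)) : Finset ℕ :=
  (Icc 1 N).filter fun n => G ⊆ Amb m n ∧ ∀ p ∈ n.primeFactors, Rch m n G (0, p)

/-- one step at `n` from the prime `w` on level `i` to the prime `z` on level `i + 1` -/
def Stp (n i w z : ℕ) : Prop :=
  w ∈ (it i n).primeFactors ∧ z.Prime ∧ z ∣ sigma 1 (w ^ (it i n).factorization w)

/-- `Pp n i w j z`: path at `n` from `w` on level `i` to `z` on level `j` (no wrapping) -/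
inductive Pp (n : ℕ) : ℕ → ℕ → ℕ → ℕ → Prop
  | refl {i w : ℕ} : w ∈ (it i n).primeFactors → Pp n i w i w
  | snoc {i w j v z : ℕ} : Pp n i w j v → Stp n j v z → Pp n i w (j + 1) z

/-- the set of elements given by `t` and `g` -/
def Gd (m t : ℕ) (g : ℕ → ℕ) : Finset (ℕ × ℕ) :=
  (t.primeFactors.image fun p => (0, p)) ∪
    (range m).biUnion fun i => (g i).primeFactors.image fun z => (i, z)

/-- the parameter `L`, of size `log N` -/
def LL (m N : ℕ) : ℕ := 2 ^ m * (Nat.log 2 N + 1) + 1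

/-! ## Rows -/

/-- `LLB`.  Proof: `k ≤ N ^ 2 ^ m < (2 ^ (Nat.log 2 N + 1)) ^ 2 ^ m = 2 ^ (LL m N - 1)`.
So `Nat.log 2 k < LL`, and `omega_le_log` gives the second part.  First part:
`σ k = ∑ d ∣ k, k / d ≤ k * ∑ d ≤ k, 1/d ≤ k * (1 + log k)` (`harmonic_le_one_add_log`, or any
dyadic estimate) and `log k ≤ (LL - 1) * log 2 ≤ LL - 1`.
Last part: `Nat.log 2 N ≤ log N / log 2 ≤ 2 * log N`. -/
def LLBStmt : Prop := ∀ m N : ℕ, 1 ≤ N →
  (∀ k : ℕ, 1 ≤ k → k ≤ N ^ 2 ^ m →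
    sigma 1 k ≤ LL m N * k ∧ k.primeFactors.card ≤ LL m N) ∧
  (LL m N : ℝ) ≤ 2 ^ (m + 2) * (1 + Real.log N)

/-- `AMB`.  Proof: `e = (i, w)`, `i < m`.  If the value of `e` is `0`, nothing is produced
(`σ 1 = 1`).  Otherwise `w` divides `it i n`, and a prime `z` which divides
`σ (w ^ val)` divides `it (i + 1) n` (`sigma_prod`, `Finset.dvd_prod_of_mem`); so
`(i + 1, z)` is in `Amb` if `i + 1 < m`, and `(0, z)` is in `Amb` if `i + 1 = m`. -/
def AMBStmt : Prop := ∀ m n : ℕ, 1 ≤ m → 1 ≤ n → ∀ e ∈ Amb m n, ∀ e' ∈ out m e (val n e),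
  e' ∈ Amb m n

/-- `PTH`, basic facts on paths.  Proofs: inductions on the path.  (1) end points are primes of
the iterates (`Stp n j v z` gives `z ∣ σ (v ^ _) ∣ σ (it j n) = it (j + 1) n`), `i ≤ j`.
(2) every prime of `it j n` comes from a prime of `n`: induction on `j` with `prime_dvd_sigma`.
(3) concatenation.  (4) induction for levels `j < m`: `Rch (j, v)`; each step stays below `m` or
is the last one, which wraps to level `0` (`nx m (m - 1) = 0`). -/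
def PTHStmt : Prop := ∀ n : ℕ, 1 ≤ n →
  (∀ i w j z : ℕ, Pp n i w j z →
    w ∈ (it i n).primeFactors ∧ z ∈ (it j n).primeFactors ∧ i ≤ j) ∧
  (∀ j z : ℕ, z ∈ (it j n).primeFactors → ∃ r ∈ n.primeFactors, Pp n 0 r j z) ∧
  (∀ i w j v k z : ℕ, Pp n i w j v → Pp n j v k z → Pp n i w k z) ∧
  (∀ (m : ℕ) (G : Finset (ℕ × ℕ)) (i w z : ℕ), i < m → Pp n i w m z → Rch m n G (i, w) →
    Rch m n G (0, z))

/-- `ONE`: the primes on level `j` which come only from the set `T` of primes exactly dividing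
`n` are small.  Proof: induction on `j`.  `j = 0`: a prime `z ∈ S` comes from itself, so
`S ⊆ T` and the exponents are `1`.  Step: let `S' = {w ∈ primeFactors (it j n) : some z ∈ S
divides σ (w ^ v_w)}`.  A prime `r` with a path to `w ∈ S'` has a path to some `z ∈ S`
(`Pp.snoc`), so `r ∈ T` and the induction hypothesis applies to `S'`.  Put
`D' = ∏ w ∈ S', w ^ v_w`, a divisor of `it j n`.  By `sigma_prod`,
`it (j + 1) n = (∏ w ∈ S', σ (w ^ v_w)) * (∏ w ∉ S', σ (w ^ v_w))`, the first factor is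
`σ D'` (multiplicativity) and no `z ∈ S` divides the second one; so
`∏ z ∈ S, z ^ v_z` divides `σ D'`, and `σ D' ≤ L * D'`. -/
def ONEStmt : Prop := ∀ m n L : ℕ, 1 ≤ n →
  (∀ i ≤ m, ∀ k : ℕ, k ∣ it i n → sigma 1 k ≤ L * k) →
  ∀ T ⊆ n.primeFactors, (∀ p ∈ T, n.factorization p = 1) →
  ∀ j ≤ m, ∀ S ⊆ (it j n).primeFactors, (∀ z ∈ S, ∀ r, Pp n 0 r j z → r ∈ T) →
    ∏ z ∈ S, z ^ (it j n).factorization z ≤ L ^ j * ∏ p ∈ T, p

/-- `SEL`: a path from `p` back to `p` passes a prime with exponent at least `2` on a level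
`1 ≤ j < m`.  Proof: by induction on `i ≥ 1` (`i ≤ m`): for every `z` with `Pp n 0 p i z` either
`z < p` or there are `1 ≤ j < i` and `w` with `2 ≤ (it j n).factorization w`, `Pp n 0 p j w`,
`Pp n j w i z`.  `i = 1`: `z ∣ σ p = p + 1`, `z` prime, `p > 3` prime gives `z < p`.  Step from
`(i, v)` to `(i + 1, z)`: in the second case extend the path.  In the first case, if the exponent
of `v` is at least `2` take `w = v`, `j = i`; if it is `1`, `z ∣ v + 1 ≤ p`, and `z = p` would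
give `p = v + 1` with `v`, `p` prime and `p > 3`, impossible (parity).  For `i = m`, `z = p`
the first case is impossible.  (`PTH` gives that `v` is a prime factor of `it i n`.) -/
def SELStmt : Prop := ∀ m n p : ℕ, 1 ≤ m → 1 ≤ n → 3 < p → p ∈ n.primeFactors →
  n.factorization p = 1 → Pp n 0 p m p →
  ∃ j w : ℕ, 1 ≤ j ∧ j < m ∧ 2 ≤ (it j n).factorization w ∧ Pp n 0 p j w ∧ Pp n j w m p

/-- `COL`.  Proof: `Q₁ = {p ∈ U : p < r p}`, `Q₂ = {p ∈ U : r p < p}` are complementary in `U`,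
so `∏ Q₁ * ∏ Q₂ = ∏ U`; let `Q` be the one with the smaller product.  If `Q = Q₁`: strong
induction on `p` (for `p ∈ Q₂`, `r p < p`).  If `Q = Q₂`: induction on `sup U - p`
(for `p ∈ Q₁`, `p < r p`; if `r p ∉ U` use the hypothesis). -/
def COLStmt : Prop := ∀ (U : Finset ℕ) (r : ℕ → ℕ), (∀ p ∈ U, r p ≠ p) →
  ∃ Q ⊆ U, (∏ p ∈ Q, p) ^ 2 ≤ ∏ p ∈ U, p ∧
    ∀ P : ℕ → Prop, (∀ p ∈ Q, P p) → (∀ p ∈ U, r p ∉ U → P (r p)) →
      (∀ p ∈ U, P (r p) → P p) → ∀ p ∈ U, P p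

/-- `GEN` (helper38).  Every `n` has a cheap generating set. -/
def GENStmt : Prop := ∀ m n L : ℕ, 1 ≤ m → 1 ≤ n → 1 ≤ L →
  (∀ i ≤ m, ∀ k : ℕ, k ∣ it i n → sigma 1 k ≤ L * k) →
  ∃ (t u : ℕ) (g : ℕ → ℕ), t * u = n ∧ Nat.gcd n (it m n) ≤ u ∧
    (∀ i < m, 1 ≤ g i ∧ g i ≤ it i n) ∧
    (∏ i ∈ range m, g i) ^ 2 ≤ 6 * L ^ (m * m) * u ∧
    Gd m t g ⊆ Amb m n ∧ ∀ p ∈ n.primeFactors, Rch m n (Gd m t g) (0, p)

/-- `TRE`, the tree lemma.  Proof: for `S` and `n₀ ∈ A` with `S ⊆ E n₀` let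
`A(S, n₀) = {n ∈ A : S ⊆ E n, v n = v n₀ on S}`.  Claim, by induction on `k`: if
`(E n \ S).card ≤ k` for all `n ∈ A(S, n₀)` then
`∑ n ∈ A(S, n₀), ∏ e ∈ E n \ S, (1 - x e) * x e ^ v n e ≤ 1`.
Apply the hypothesis to `S`, `n₀`.  First case: `A(S, n₀) = {n₀}` and a product of numbers in
`[0, 1]` is at most `1`.  Second case: `e ∉ S`, `e ∈ E n` for all `n ∈ A(S, n₀)` (so `k ≥ 1`);
split `A(S, n₀)` according to the value `f = v n e`; the part of `f`, if nonempty, is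
`A(insert e S, n₁)` for any `n₁` in it, and its sum is
`(1 - x e) * x e ^ f * (sum for insert e S) ≤ (1 - x e) * x e ^ f`; the sum of these over
finitely many `f` is at most `1` (geometric series).  Conclude with `S = ∅`. -/
def TREStmt : Prop := ∀ (A : Finset ℕ) (v : ℕ → ℕ × ℕ → ℕ) (E : ℕ → Finset (ℕ × ℕ))
  (x : ℕ × ℕ → ℝ), (∀ n ∈ A, ∀ e ∈ E n, 0 ≤ x e ∧ x e < 1) →
  (∀ S : Finset (ℕ × ℕ), ∀ n ∈ A, S ⊆ E n →
    (∀ n' ∈ A, S ⊆ E n' → (∀ e ∈ S, v n' e = v n e) → n' = n) ∨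
    ∃ e, e ∉ S ∧ ∀ n' ∈ A, S ⊆ E n' → (∀ e ∈ S, v n' e = v n e) → e ∈ E n') →
  ∑ n ∈ A, ∏ e ∈ E n, ((1 - x e) * x e ^ v n e) ≤ 1

/-- `PBD`.  Proof: choose `B ≥ 2` with `1 - B ^ (-δ) ≥ exp (-η)`, and
`c = (1 - 2 ^ (-δ)) ^ (m * B)`.  For `e ∈ E` with `B ≤ e.2` the factor is at least `exp (-η)`;
for the others (at most `m * B` of them, they lie in `range m ×ˢ range B`) it is at least
`1 - 2 ^ (-δ)`, a number in `(0, 1)`. -/
def PBDStmt : Prop := ∀ (m : ℕ) (δ η : ℝ), 0 < δ → 0 < η → ∃ c : ℝ, 0 < c ∧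
  ∀ E : Finset (ℕ × ℕ), (∀ e ∈ E, e.1 < m ∧ 2 ≤ e.2) →
    c * Real.exp (-(η * E.card)) ≤ ∏ e ∈ E, (1 - (e.2 : ℝ) ^ (-δ))

/-- `WLB` (uses `PBD` and `LLB`).  Proof: `δ = ε / (2 * m * 2 ^ m)`.  Part one:
`∏ e ∈ E, e.2 ^ val n e ≤ ∏ i < m, it i n ≤ (N ^ 2 ^ m) ^ m` (for every level `i` the elements of
`E` on this level give distinct primes, and the product of `z ^ v_z (it i n)` over any finite set
of primes is at most `it i n`), so `∏ e ∈ E, (e.2 ^ (-δ)) ^ val n e ≥ N ^ (-(ε / 2))`.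
Part two: `E.card ≤ (Amb m n).card ≤ m * (2 * LL m N)` by `LLB` (`it i n ≤ N ^ 2 ^ i`,
`it_le`), and `LL m N ≤ 2 ^ (m + 2) * (1 + log N)`; `PBD` with
`η = ε / (2 * (2 * m * 2 ^ (m + 2)))` gives `∏ e ∈ E, (1 - e.2 ^ (-δ)) ≥ c * exp (-ε / 2) *
N ^ (-(ε / 2))`. -/
def WLBStmt : Prop := ∀ (m : ℕ) (ε : ℝ), 1 ≤ m → 0 < ε → ∃ δ c : ℝ, 0 < δ ∧ 0 < c ∧
  ∀ N n : ℕ, 1 ≤ n → n ≤ N → ∀ E ⊆ Amb m n,
    c * (N : ℝ) ^ (-ε) ≤ ∏ e ∈ E, ((1 - (e.2 : ℝ) ^ (-δ)) * ((e.2 : ℝ) ^ (-δ)) ^ val n e)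

/-- `CNT` (uses `TRE`, `WLB`, `AMB`).  Proof: `A = Cls m N G`, `E n` = the elements of `Amb m n`
in the closure `Rch m n G`, `v = val`, `x e = e.2 ^ (-δ)` with the `δ` of `WLB`.  Hypothesis of
`TRE` for `S`, `n`: (a) if some `e ∈ G` is not in `S`, it is in `E n'` for all `n' ∈ A`.
(b) if `G ⊆ S` and some `e ∈ S` and `e' ∈ out m e (val n e)` have `e' ∉ S`: for `n'` which agrees
with `n` on `S`, `S ⊆ E n'`, `e' ∈ out m e (val n' e)` is reachable, and in `Amb m n'` by `AMB`.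
(c) otherwise `S` is closed for `n` and for every `n'` which agrees with `n` on `S`, so
`Rch m n G e → e ∈ S` and `Rch m n' G e → e ∈ S` (induction); all prime factors of `n` and of
`n'` are in `S` on level `0`, hence `n.factorization = n'.factorization` and `n' = n`
(`Nat.eq_of_factorization_eq`; `it 0 n = n`).  So
`card A * (c * N ^ (-ε)) ≤ 1`, `C = 1 / c`. -/
def CNTStmt : Prop := ∀ (m : ℕ) (ε : ℝ), 1 ≤ m → 0 < ε → ∃ C : ℝ, 0 < C ∧
  ∀ (N : ℕ) (G : Finset (ℕ × ℕ)), 1 ≤ N → ((Cls m N G).card : ℝ) ≤ C * (N : ℝ) ^ ε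

/-- `FIN` (uses `LLB`, `GEN`, `CNT`).  Proof: let `L = LL m N`, `X = N ^ 2 ^ m` and
`M = √(6 * L ^ (m * m)) * N / √D`.  By `GEN` (with `LLB`; divisors of `it i n` are at most
`X`) every `n ≤ N` with `D ≤ gcd n (it m n)` lies in `Cls m N (Gd m t g)` for some
`t ∈ Icc 1 X`, `g i ∈ Icc 1 X` (`i < m`; put `g i = 1` for `m ≤ i`, or use functions on
`Fin m`), with
`(t * ∏ g i) ^ 2 * D ≤ t ^ 2 * 6 * L ^ (m * m) * u * u ≤ 6 * L ^ (m * m) * N ^ 2`, that is
`t * ∏ g i ≤ M`.  The number of such `(t, g)` is at most the sum of `M / (t * ∏ g i)` over all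
`t`, `g`, that is `M * H ^ (m + 1)`, `H = ∑ k ∈ Icc 1 X, 1 / k ≤ 1 + log X ≤
2 ^ m * (1 + log N)` (`Finset.prod_univ_sum` with `Fintype.piFinset`; see `Pool.MKP.Wbound` and
`Pool.MKP.card_le_sum` in `H38/MKP/Final.lean`, `Count.lean`).  Multiply by the bound of `CNT` with
`ε / 2`; `√(6 * L ^ (m * m)) * H ^ (m + 1) ≤ C * (1 + log N) ^ k ≤ C' * N ^ (ε / 2)`. -/
def FINStmt : Prop := ∀ (m : ℕ) (ε : ℝ), 1 ≤ m → 0 < ε → ∃ C : ℝ, 0 < C ∧
  ∀ N D : ℕ, 1 ≤ D → (((Icc 1 N).filter fun n => D ≤ Nat.gcd n (it m n)).card : ℝ)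
    ≤ C * (N : ℝ) ^ (1 + ε) / Real.sqrt D

/-- `HAL` (uses `FIN`).  Proof: let `f N` be the number of `n ∈ Icc 1 N` with `n ∣ it m n`.
`f N ≤ f (N / 2) + card {n ∈ Icc 1 N : (N + 1) / 2 ≤ gcd n (it m n)}` (for `n > N / 2` the gcd is
`n`), so `f N ≤ f (N / 2) + C * N ^ (1 + ε) / √((N + 1) / 2) ≤ f (N / 2) +
2 * C * N ^ (1 / 2 + ε)`; strong induction on `N` gives `f N ≤ A * N ^ (1 / 2 + ε)` with
`A * (1 - 2 ^ (-1/2)) ≥ 2 * C`, e.g. `A = 10 * C`. -/
def HALStmt : Prop := ∀ (m : ℕ) (ε : ℝ), 1 ≤ m → 0 < ε → ∃ C : ℝ, 0 < C ∧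
  ∀ N : ℕ, (((Icc 1 N).filter fun n => n ∣ it m n).card : ℝ) ≤ C * (N : ℝ) ^ ((1 : ℝ) / 2 + ε)

end Pool.PWS
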