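import Pool.Agent.H38.PWS.Explicit
import Pool.Agent.H38.PWS.Reach
import Pool.Agent.H14.PWS.TRE
import Pool.Agent.H22.PWS.LLB
import Pool.Agent.H70.PWS.AMB

/-!
# The bound of Wirsing for all iterates of the sum of divisors
-/

set_option autoImplicit false

namespace Pool.PWS

open ArithmeticFunction Finset Pool.MKP

/-- product of the prime powers of the elements of `E` -/
lemma prod_val_le {m n N : ℕ} (hn : 1 ≤ n) (hN : n ≤ N) (E : Finset (ℕ × ℕ))
    (hE : ∀ e ∈ E, e.1 < m ∧ e.2.Prime) :
    ∏ e ∈ E, e.2 ^ val n e ≤ (N ^ 2 ^ m) ^ m := by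
  classical
  have hmap : ∀ e ∈ E, e.1 ∈ range m := fun e he => Finset.mem_range.2 (hE e he).1
  rw [← Finset.prod_fiberwise_of_maps_to hmap]
  have h1 : ∀ i ∈ range m, ∏ e ∈ E with e.1 = i, e.2 ^ val n e ≤ N ^ 2 ^ m := by
    intro i hi
    have hi' : i < m := Finset.mem_range.1 hi
    have h2 : ∏ e ∈ E with e.1 = i, e.2 ^ val n e
        = ∏ z ∈ (E.filter fun e => e.1 = i).image Prod.snd,
            z ^ (it i n).factorization z := by
      rw [Finset.prod_image]
      · apply Finset.prod_congr rfl
        intro e he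
        rw [Finset.mem_filter] at he
        unfold val
        rw [he.2]
      · intro a ha b hb hab
        rw [Finset.mem_coe, Finset.mem_filter] at ha hb
        exact Prod.ext (ha.2.trans hb.2.symm) hab
    rw [h2]
    refine (wlb_part (it_pos hn i).ne' _).trans ((it_le hN i).trans ?_)
    exact Nat.pow_le_pow_right (by omega) (Nat.pow_le_pow_right (by norm_num) hi'.le)
  refine (Finset.prod_le_prod' h1).trans ?_
  rw [Finset.prod_const, Finset.card_range]

/-- few primes -/
lemma card_primes {Y : ℕ} (hY : 3 ≤ Y) :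
    ((((Icc 1 Y).filter Nat.Prime).filter fun z : ℕ => Real.sqrt Y < (z : ℝ)).card : ℝ)
      ≤ 4 * (Y / Real.log Y) := by
  have hY3 : (3 : ℝ) ≤ Y := by exact_mod_cast hY
  have hl := one_le_log hY
  set F := ((Icc 1 Y).filter Nat.Prime).filter fun z : ℕ => Real.sqrt Y < (z : ℝ) with hF
  have h1 : (Real.sqrt Y) ^ F.card ≤ (4 : ℝ) ^ Y := by
    calc (Real.sqrt Y) ^ F.card = ∏ _z ∈ F, Real.sqrt Y := by rw [Finset.prod_const]
      _ ≤ ∏ z ∈ F, (z : ℝ) := by
          apply Finset.prod_le_prod
          · intro i _; positivity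
          · intro i hi; exact (Finset.mem_filter.1 hi).2.le
      _ = ((∏ z ∈ F, z : ℕ) : ℝ) := by push_cast; rfl
      _ ≤ ((primorial Y : ℕ) : ℝ) := by
          have h2 : ∏ z ∈ F, z ≤ primorial Y := by
            unfold primorial
            apply Finset.prod_le_prod_of_subset_of_one_le'
            · intro z hz
              rw [hF, Finset.mem_filter, Finset.mem_filter, Finset.mem_Icc] at hz
              rw [Finset.mem_filter, Finset.mem_range]
              exact ⟨by omega, hz.1.2⟩
            · intro i hi _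
              exact (Finset.mem_filter.1 hi).2.one_le
          exact_mod_cast h2
      _ ≤ (4 : ℝ) ^ Y := by exact_mod_cast primorial_le_four_pow Y
  have h2 := Real.log_le_log (by positivity) h1
  rw [Real.log_pow, Real.log_pow, Real.log_sqrt (by positivity)] at h2
  have h3 : Real.log 4 ≤ 2 := by
    rw [show (4 : ℝ) = 2 ^ 2 by norm_num, Real.log_pow]
    have := Real.log_two_lt_d9
    push_cast
    linarith
  have h4 : (F.card : ℝ) * (Real.log Y / 2) ≤ Y * 2 :=
    h2.trans (mul_le_mul_of_nonneg_left h3 (by linarith))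
  rw [mul_div_assoc', le_div_iff₀ (by linarith)]
  linarith

/-- explicit lower bound of the weight -/
theorem weight (m N n h Y : ℕ) (hm : 1 ≤ m) (hn : 1 ≤ n) (hnN : n ≤ N) (hh : 1 ≤ h)
    (hhN : h ≤ N) (hY3 : 3 ≤ Y) (hYL : m * LL m N ≤ Y) (E : Finset (ℕ × ℕ))
    (hE : E ⊆ Amb m n ∪ Gy m Y h) :
    Real.exp (-(53 * m * (Y / Real.log Y))) ≤
      ∏ e ∈ E, ((1 - (e.2 : ℝ) ^ (-(1 / Real.log Y))) *
        ((e.2 : ℝ) ^ (-(1 / Real.log Y))) ^ val n e) := by
  classical
  have hX := X_le m N
  have hLY : LL m N ≤ Y := le_trans (Nat.le_mul_of_pos_left _ hm) hYL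
  have hXY : N ^ 2 ^ m ≤ 2 ^ Y := hX.trans (Nat.pow_le_pow_right (by norm_num) hLY)
  have hl := one_le_log hY3
  have hYr : (3 : ℝ) ≤ Y := by exact_mod_cast hY3
  set ℓ := Real.log Y with hℓ
  set A : ℝ := Y / ℓ with hA
  have hA0 : 0 ≤ A := by positivity
  have hm1 : (1 : ℝ) ≤ m := by exact_mod_cast hm
  have hEp : ∀ e ∈ E, e.1 < m ∧ e.2.Prime := by
    intro e he
    rcases Finset.mem_union.1 (hE he) with h1 | h1
    · exact wlb_mem h1
    · unfold Gy at h1
      rcases Finset.mem_union.1 h1 with h2 | h2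
      · rw [Finset.mem_product, Finset.mem_range, Finset.mem_filter] at h2
        exact ⟨h2.1, h2.2.2⟩
      · rw [Finset.mem_image] at h2
        obtain ⟨p, hp, rfl⟩ := h2
        exact ⟨hm, Nat.prime_of_mem_primeFactors hp⟩
  rw [Finset.prod_mul_distrib]
  -- the second product
  have part1 : Real.exp (-A) ≤ ∏ e ∈ E, ((e.2 : ℝ) ^ (-(1 / ℓ))) ^ val n e := by
    have e1 : ∀ e ∈ E, ((e.2 : ℝ) ^ (-(1 / ℓ))) ^ val n e
        = (((e.2 ^ val n e : ℕ)) : ℝ) ^ (-(1 / ℓ)) := by
      intro e _
      rw [Nat.cast_pow, ← Real.rpow_natCast, ← Real.rpow_natCast, ← Real.rpow_mul (by positivity),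
        ← Real.rpow_mul (by positivity), mul_comm]
    rw [Finset.prod_congr rfl e1, Real.finsetProd_rpow _ _ (fun e _ => Nat.cast_nonneg _),
      ← Nat.cast_prod]
    have hP := prod_val_le hn hnN E hEp
    have hP' : (((∏ e ∈ E, e.2 ^ val n e : ℕ)) : ℝ) ≤ (2 : ℝ) ^ Y := by
      have h1 : ∏ e ∈ E, e.2 ^ val n e ≤ 2 ^ Y := by
        calc ∏ e ∈ E, e.2 ^ val n e ≤ (N ^ 2 ^ m) ^ m := hP
          _ ≤ (2 ^ LL m N) ^ m := Nat.pow_le_pow_left hX m
          _ = 2 ^ (m * LL m N) := by rw [← pow_mul, mul_comm]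
          _ ≤ 2 ^ Y := Nat.pow_le_pow_right (by norm_num) hYL
      exact_mod_cast h1
    have hPpos : (0 : ℝ) < ((∏ e ∈ E, e.2 ^ val n e : ℕ) : ℝ) := by
      have : 0 < ∏ e ∈ E, e.2 ^ val n e :=
        Finset.prod_pos fun e he => pow_pos (hEp e he).2.pos _
      exact_mod_cast this
    rw [Real.rpow_def_of_pos hPpos]
    apply Real.exp_le_exp.2
    have h2 : Real.log (((∏ e ∈ E, e.2 ^ val n e : ℕ)) : ℝ) ≤ Y := by
      refine (Real.log_le_log hPpos hP').trans ?_
      rw [Real.log_pow]
      have h3 : Real.log 2 ≤ 1 := by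
        have := Real.log_two_lt_d9
        linarith
      nlinarith
    rw [mul_neg, neg_le_neg_iff, mul_one_div, hA]
    exact div_le_div_of_nonneg_right h2 (by linarith)
  -- the first product
  have part2 : Real.exp (-(52 * m * A)) ≤ ∏ e ∈ E, (1 - (e.2 : ℝ) ^ (-(1 / ℓ))) := by
    rw [← Finset.prod_filter_mul_prod_filter_not E (fun e => Real.sqrt Y < (e.2 : ℝ))]
    have hbig : Real.exp (-(20 * m * A)) ≤
        ∏ e ∈ E.filter (fun e => Real.sqrt Y < (e.2 : ℝ)), (1 - (e.2 : ℝ) ^ (-(1 / ℓ))) := by
      obtain ⟨Q, hQ⟩ : ∃ Q : Finset ℕ → Finset ℕ,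
        Q = fun S => S.filter fun z : ℕ => Real.sqrt Y < (z : ℝ) := ⟨_, rfl⟩
      have memQ : ∀ S z, z ∈ Q S ↔ z ∈ S ∧ Real.sqrt Y < (z : ℝ) := by
        intro S z; rw [hQ]; exact Finset.mem_filter
      have cardQ : ∀ k : ℕ, 1 ≤ k → k ≤ N ^ 2 ^ m → ((Q k.primeFactors).card : ℝ) ≤ 2 * A := by
        intro k hk1 hk2
        rw [hQ]
        exact card_big hY3 hk1 (hk2.trans hXY)
      have cardP : ((Q ((Icc 1 Y).filter Nat.Prime)).card : ℝ) ≤ 4 * A := by
        rw [hQ]
        exact card_primes hY3
      have hcard : ((E.filter (fun e => Real.sqrt Y < (e.2 : ℝ))).card : ℝ) ≤ 10 * m * A := by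
        have h1 : E.filter (fun e => Real.sqrt Y < (e.2 : ℝ)) ⊆
            (range m).biUnion fun i =>
              ((Q (it i n).primeFactors ∪ Q (it m n).primeFactors) ∪
                (Q ((Icc 1 Y).filter Nat.Prime) ∪ Q h.primeFactors)).image
                  fun z => (i, z) := by
          intro e he
          rw [Finset.mem_filter] at he
          rw [Finset.mem_biUnion]
          refine ⟨e.1, Finset.mem_range.2 (hEp e he.1).1, ?_⟩
          rw [Finset.mem_image]
          refine ⟨e.2, ?_, rfl⟩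
          rw [Finset.mem_union, Finset.mem_union, Finset.mem_union, memQ, memQ, memQ, memQ]
          rcases Finset.mem_union.1 (hE he.1) with h2 | h2
          · unfold Amb at h2
            rw [Finset.mem_biUnion] at h2
            obtain ⟨i, hi, h3⟩ := h2
            rw [Finset.mem_image] at h3
            obtain ⟨z, hz, hze⟩ := h3
            rw [← hze] at he ⊢
            rcases Finset.mem_union.1 hz with h4 | h4
            · exact Or.inl (Or.inl ⟨h4, he.2⟩)
            · exact Or.inl (Or.inr ⟨h4, he.2⟩)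
          · unfold Gy at h2
            rcases Finset.mem_union.1 h2 with h3 | h3
            · rw [Finset.mem_product] at h3
              exact Or.inr (Or.inl ⟨h3.2, he.2⟩)
            · rw [Finset.mem_image] at h3
              obtain ⟨p, hp, hpe⟩ := h3
              rw [← hpe] at he ⊢
              exact Or.inr (Or.inr ⟨hp, he.2⟩)
        have h3 := (Finset.card_le_card h1).trans Finset.card_biUnion_le
        have h4 : ((E.filter (fun e => Real.sqrt Y < (e.2 : ℝ))).card : ℝ) ≤
            ∑ i ∈ range m, ((((Q (it i n).primeFactors ∪ Q (it m n).primeFactors) ∪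
                (Q ((Icc 1 Y).filter Nat.Prime) ∪ Q h.primeFactors)).image
                  fun z => (i, z)).card : ℝ) := by exact_mod_cast h3
        refine h4.trans ?_
        have h5 : ∀ i ∈ range m, ((((Q (it i n).primeFactors ∪ Q (it m n).primeFactors) ∪
                (Q ((Icc 1 Y).filter Nat.Prime) ∪ Q h.primeFactors)).image
                  fun z => (i, z)).card : ℝ) ≤ 10 * A := by
          intro i hi
          have hi' := Finset.mem_range.1 hi
          have h6 : ((((Q (it i n).primeFactors ∪ Q (it m n).primeFactors) ∪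
                (Q ((Icc 1 Y).filter Nat.Prime) ∪ Q h.primeFactors)).image
                  fun z => (i, z)).card) ≤
              ((Q (it i n).primeFactors).card + (Q (it m n).primeFactors).card) +
                ((Q ((Icc 1 Y).filter Nat.Prime)).card + (Q h.primeFactors).card) :=
            Finset.card_image_le.trans ((Finset.card_union_le _ _).trans
              (Nat.add_le_add (Finset.card_union_le _ _) (Finset.card_union_le _ _)))
          have h7 := cardQ (it i n) (it_pos hn i) ((it_le hnN i).trans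
            (Nat.pow_le_pow_right (by omega) (Nat.pow_le_pow_right (by norm_num) hi'.le)))
          have h8 := cardQ (it m n) (it_pos hn m) (it_le hnN m)
          have h9 := cardQ h hh (by
            calc h ≤ N := hhN
              _ = N ^ 1 := (pow_one N).symm
              _ ≤ N ^ 2 ^ m := Nat.pow_le_pow_right (by omega) Nat.one_le_two_pow)
          have h10 : ((((Q (it i n).primeFactors ∪ Q (it m n).primeFactors) ∪
                (Q ((Icc 1 Y).filter Nat.Prime) ∪ Q h.primeFactors)).image
                  fun z => (i, z)).card : ℝ) ≤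
              (((Q (it i n).primeFactors).card : ℝ) + ((Q (it m n).primeFactors).card : ℝ)) +
                (((Q ((Icc 1 Y).filter Nat.Prime)).card : ℝ) +
                  ((Q h.primeFactors).card : ℝ)) := by
            exact_mod_cast h6
          linarith
        refine (Finset.sum_le_sum h5).trans ?_
        rw [Finset.sum_const, Finset.card_range, nsmul_eq_mul]
        linarith
      calc Real.exp (-(20 * m * A)) ≤
            Real.exp (-2) ^ (E.filter (fun e => Real.sqrt Y < (e.2 : ℝ))).card := by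
            rw [← Real.exp_nat_mul]
            apply Real.exp_le_exp.2
            linarith
        _ = ∏ _e ∈ E.filter (fun e => Real.sqrt Y < (e.2 : ℝ)), Real.exp (-2) := by
            rw [Finset.prod_const]
        _ ≤ _ := by
            apply Finset.prod_le_prod
            · intro e _; exact (Real.exp_pos _).le
            · intro e he; exact big_factor hY3 (Finset.mem_filter.1 he).2
    have hsmall : Real.exp (-(32 * m * A)) ≤
        ∏ e ∈ E.filter (fun e => ¬ Real.sqrt Y < (e.2 : ℝ)), (1 - (e.2 : ℝ) ^ (-(1 / ℓ))) := by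
      have hcard : ((E.filter (fun e => ¬ Real.sqrt Y < (e.2 : ℝ))).card : ℝ)
          ≤ m * Real.sqrt Y := by
        have h1 : E.filter (fun e => ¬ Real.sqrt Y < (e.2 : ℝ)) ⊆
            range m ×ˢ Icc 1 ⌊Real.sqrt Y⌋₊ := by
          intro e he
          rw [Finset.mem_filter] at he
          have h2 := hEp e he.1
          rw [Finset.mem_product, Finset.mem_range, Finset.mem_Icc]
          refine ⟨h2.1, h2.2.pos, Nat.le_floor (not_lt.1 he.2)⟩
        have h2 := Finset.card_le_card h1
        rw [Finset.card_product, Finset.card_range, Nat.card_Icc] at h2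
        calc ((E.filter (fun e => ¬ Real.sqrt Y < (e.2 : ℝ))).card : ℝ)
            ≤ ((m * (⌊Real.sqrt Y⌋₊ + 1 - 1) : ℕ) : ℝ) := by exact_mod_cast h2
          _ = m * (⌊Real.sqrt Y⌋₊ : ℝ) := by push_cast [Nat.add_sub_cancel]; ring
          _ ≤ m * Real.sqrt Y := by
              apply mul_le_mul_of_nonneg_left _ (by linarith)
              exact Nat.floor_le (Real.sqrt_nonneg _)
      have hbase : Real.exp (-(2 * ℓ)) ≤ 1 / (2 * ℓ) := by
        rw [Real.exp_neg, one_div]
        apply inv_anti₀ (by linarith)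
        have := Real.add_one_le_exp (2 * ℓ)
        linarith
      have h16 : Real.sqrt Y * (2 * ℓ) ≤ 32 * A := by
        rw [hA, mul_div_assoc', le_div_iff₀ (by linarith)]
        have h1 := log_sq_le hY3
        have h2 : Real.sqrt Y * Real.sqrt Y = Y := Real.mul_self_sqrt (by linarith)
        have h3 : 0 ≤ Real.sqrt Y := Real.sqrt_nonneg _
        calc Real.sqrt Y * (2 * ℓ) * ℓ = 2 * (Real.sqrt Y * ℓ ^ 2) := by ring
          _ ≤ 2 * (Real.sqrt Y * (16 * Real.sqrt Y)) := by
              apply mul_le_mul_of_nonneg_left _ (by norm_num)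
              exact mul_le_mul_of_nonneg_left h1 h3
          _ = 32 * (Real.sqrt Y * Real.sqrt Y) := by ring
          _ = 32 * Y := by rw [h2]
      calc Real.exp (-(32 * m * A)) ≤
            Real.exp (-(2 * ℓ)) ^ (E.filter (fun e => ¬ Real.sqrt Y < (e.2 : ℝ))).card := by
            rw [← Real.exp_nat_mul]
            apply Real.exp_le_exp.2
            have h1 : ((E.filter (fun e => ¬ Real.sqrt Y < (e.2 : ℝ))).card : ℝ) * (2 * ℓ)
                ≤ m * Real.sqrt Y * (2 * ℓ) := mul_le_mul_of_nonneg_right hcard (by linarith)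
            have h2 : m * Real.sqrt Y * (2 * ℓ) ≤ 32 * m * A := by
              calc m * Real.sqrt Y * (2 * ℓ) = m * (Real.sqrt Y * (2 * ℓ)) := by ring
                _ ≤ m * (32 * A) := mul_le_mul_of_nonneg_left h16 (by linarith)
                _ = 32 * m * A := by ring
            linarith
        _ = ∏ _e ∈ E.filter (fun e => ¬ Real.sqrt Y < (e.2 : ℝ)), Real.exp (-(2 * ℓ)) := by
            rw [Finset.prod_const]
        _ ≤ _ := by
            apply Finset.prod_le_prod
            · intro e _; exact (Real.exp_pos _).le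
            · intro e he
              have h1 := (hEp e (Finset.mem_filter.1 he).1).2.two_le
              exact hbase.trans (small_factor hY3 h1)
    calc Real.exp (-(52 * m * A)) = Real.exp (-(20 * m * A)) * Real.exp (-(32 * m * A)) := by
          rw [← Real.exp_add]; congr 1; ring
      _ ≤ _ := mul_le_mul hbig hsmall (Real.exp_pos _).le
          (le_trans (Real.exp_pos _).le hbig)
  calc Real.exp (-(53 * m * A)) ≤ Real.exp (-(52 * m * A)) * Real.exp (-A) := by
        rw [← Real.exp_add]
        apply Real.exp_le_exp.2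
        nlinarith
    _ ≤ _ := mul_le_mul part2 part1 (Real.exp_pos _).le (le_trans (Real.exp_pos _).le part2)

/-- the main count -/
theorem count (m N h Y : ℕ) (hm : 1 ≤ m) (hN : 1 ≤ N) (hh : 1 ≤ h) (hhN : h ≤ N)
    (hY3 : 3 ≤ Y) (hYL : 2 * m * LL m N ≤ Y) :
    (((Icc 1 N).filter fun n => n ∣ h * it m n).card : ℝ) ≤
      Real.exp (53 * m * (Y / Real.log Y)) := by
  classical
  set T := (Icc 1 N).filter fun n => n ∣ h * it m n with hT
  set B := 53 * m * (Y / Real.log Y) with hB
  set δ := 1 / Real.log Y with hδ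
  set G := Gy m Y h with hG
  have hδ0 : 0 < δ := by
    have := one_le_log hY3
    positivity
  have hYL' : m * LL m N ≤ Y := le_trans (by nlinarith) hYL
  have hX : ∀ n ∈ T, ∀ i ≤ m, it i n ≤ N ^ 2 ^ m := by
    intro n hn i hi
    rw [hT, mem_filter, mem_Icc] at hn
    exact (it_le hn.1.2 i).trans (Nat.pow_le_pow_right hN (Nat.pow_le_pow_right (by norm_num) hi))
  have hA : ∀ n ∈ T, (1 ≤ n ∧ n ≤ N) ∧ ∀ p ∈ n.primeFactors, Rch m n G (0, p) := by
    intro n hn
    have hn' := hn
    rw [hT, mem_filter, mem_Icc] at hn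
    refine ⟨hn.1, ?_⟩
    apply reach m n h Y (LL m N) hm hn.1.1 hh hn.2 _ hYL (by omega)
    intro i hi
    exact ((LLB m N hN).1 (it i n) (it_pos hn.1.1 i) (hX n hn' i hi.le)).2
  have hGp : ∀ e ∈ G, e.1 < m ∧ e.2.Prime := by
    intro e h1
    rw [hG] at h1
    unfold Gy at h1
    rcases Finset.mem_union.1 h1 with h2 | h2
    · rw [Finset.mem_product, Finset.mem_range, Finset.mem_filter] at h2
      exact ⟨h2.1, h2.2.2⟩
    · rw [Finset.mem_image] at h2
      obtain ⟨p, hp, rfl⟩ := h2
      exact ⟨hm, Nat.prime_of_mem_primeFactors hp⟩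
  set E : ℕ → Finset (ℕ × ℕ) := fun n => (Amb m n ∪ G).filter fun e => Rch m n G e with hE
  have hEm : ∀ n e, e ∈ E n ↔ e ∈ Amb m n ∪ G ∧ Rch m n G e := fun n e => mem_filter
  have hEp : ∀ n, ∀ e ∈ E n, e.1 < m ∧ e.2.Prime := by
    intro n e he
    rcases Finset.mem_union.1 ((hEm n e).1 he).1 with h1 | h1
    · exact wlb_mem h1
    · exact hGp e h1
  have hclosed : ∀ n, 1 ≤ n → ∀ e ∈ Amb m n ∪ G, ∀ e' ∈ out m e (val n e),
      e' ∈ Amb m n ∪ G := by
    intro n hn e he e' he'
    apply Finset.mem_union_left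
    apply AMB m n hm hn e _ e' he'
    rcases Finset.mem_union.1 he with h1 | h1
    · exact h1
    · -- the value is positive
      obtain ⟨h2, h3⟩ := hGp e h1
      have hv : val n e ≠ 0 := by
        intro h0
        rw [h0] at he'
        unfold out at he'
        simp at he'
      unfold Amb
      rw [Finset.mem_biUnion]
      refine ⟨e.1, Finset.mem_range.2 h2, ?_⟩
      rw [Finset.mem_image]
      refine ⟨e.2, ?_, rfl⟩
      apply Finset.mem_union_left
      rw [← Nat.support_factorization, Finsupp.mem_support_iff]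
      exact hv
  have key := TRE T val E (fun e => (e.2 : ℝ) ^ (-δ)) (by
    intro n _ e he
    have h4 : (2:ℝ) ≤ (e.2 : ℝ) := by exact_mod_cast (hEp n e he).2.two_le
    exact ⟨by positivity, Real.rpow_lt_one_of_one_lt_of_neg (by linarith) (by linarith)⟩) (by
    intro S n hn hS
    by_cases ha : ∃ e ∈ G, e ∉ S
    · obtain ⟨e, heG, heS⟩ := ha
      refine Or.inr ⟨e, heS, fun n' hn' _ _ => ?_⟩
      exact (hEm n' e).mpr ⟨Finset.mem_union_right _ heG, Rch.base heG⟩
    push Not at ha
    by_cases hb : ∃ e ∈ S, ∃ e' ∈ out m e (val n e), e' ∉ S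
    · obtain ⟨e, heS, e', he', heS'⟩ := hb
      refine Or.inr ⟨e', heS', fun n' hn' hS' hag => ?_⟩
      have h5 := (hEm n' e).mp (hS' heS)
      rw [← hag e heS] at he'
      exact (hEm n' e').mpr ⟨hclosed n' (hA n' hn').1.1 e h5.1 e' he', Rch.step h5.2 he'⟩
    push Not at hb
    left
    intro n' hn' hS' hag
    have hr : ∀ e, Rch m n G e → e ∈ S := by
      intro e he
      induction he with
      | base h => exact ha _ h
      | step _ h ih => exact hb _ ih _ h
    have hr' : ∀ e, Rch m n' G e → e ∈ S := by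
      intro e he
      induction he with
      | base h => exact ha _ h
      | step _ h ih =>
        rw [hag _ ih] at h
        exact hb _ ih _ h
    have h0 : n ≠ 0 := by have := (hA n hn).1.1; omega
    have h0' : n' ≠ 0 := by have := (hA n' hn').1.1; omega
    refine Nat.eq_of_factorization_eq h0' h0 fun p => ?_
    by_cases hp : p ∈ n.primeFactors
    · have := hag (0, p) (hr _ ((hA n hn).2 p hp))
      unfold val at this
      simpa [it_zero] using this
    by_cases hp' : p ∈ n'.primeFactors
    · have := hag (0, p) (hr' _ ((hA n' hn').2 p hp'))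
      unfold val at this
      simpa [it_zero] using this
    rw [Finsupp.notMem_support_iff.mp (by rwa [Nat.support_factorization]),
      Finsupp.notMem_support_iff.mp (by rwa [Nat.support_factorization])])
  have hlow : (T.card : ℝ) * Real.exp (-B) ≤
      ∑ n ∈ T, ∏ e ∈ E n, ((1 - (e.2 : ℝ) ^ (-δ)) * ((e.2 : ℝ) ^ (-δ)) ^ val n e) := by
    rw [← nsmul_eq_mul]
    refine card_nsmul_le_sum _ _ _ fun n hn => ?_
    exact weight m N n h Y hm (hA n hn).1.1 (hA n hn).1.2 hh hhN hY3 hYL' (E n)
      (filter_subset _ _)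
  have h6 : (T.card : ℝ) * Real.exp (-B) ≤ 1 := hlow.trans key
  rw [Real.exp_neg, ← div_eq_mul_inv, div_le_one (Real.exp_pos _)] at h6
  exact h6

/-- final form -/
theorem wirsing (m : ℕ) (hm : 1 ≤ m) : ∃ C : ℝ, 0 < C ∧ ∀ N h : ℕ, 3 ≤ N → 1 ≤ h → h ≤ N →
    (((Icc 1 N).filter fun n => n ∣ h * it m n).card : ℝ)
      ≤ Real.exp (C * (Real.log N / Real.log (Real.log N))) := by
  refine ⟨53 * m * (2 * m * 2 ^ (m + 3)), by positivity, ?_⟩
  intro N h hN hh hhN
  have hN3 : (3 : ℝ) ≤ N := by exact_mod_cast hN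
  have he := Real.exp_one_lt_d9
  have hm1 : (1 : ℝ) ≤ m := by exact_mod_cast hm
  have hlog1 : 1 < Real.log N := by
    rw [Real.lt_log_iff_exp_lt (by linarith)]
    linarith
  have hll : 0 < Real.log (Real.log N) := Real.log_pos hlog1
  have h3LL : 3 ≤ LL m N := three_le_LL hm
  obtain ⟨Y, hY⟩ : ∃ Y, Y = 2 * m * LL m N := ⟨_, rfl⟩
  have hY3 : 3 ≤ Y := by
    rw [hY]
    calc 3 ≤ LL m N := h3LL
      _ ≤ 2 * m * LL m N := Nat.le_mul_of_pos_left _ (by omega)
  refine (count m N h Y hm (by omega) hh hhN hY3 hY.ge).trans ?_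
  apply Real.exp_le_exp.2
  have hYr : (3 : ℝ) ≤ Y := by exact_mod_cast hY3
  have h1 := (LLB m N (by omega)).2
  have h2 : (Y : ℝ) ≤ 2 * m * 2 ^ (m + 3) * Real.log N := by
    have h4 : (LL m N : ℝ) ≤ 2 ^ (m + 3) * Real.log N := by
      refine h1.trans ?_
      have h3 : (0 : ℝ) < 2 ^ (m + 2) := by positivity
      rw [show (2 : ℝ) ^ (m + 3) = 2 ^ (m + 2) * 2 by ring]
      nlinarith
    rw [hY]
    push_cast
    calc 2 * (m : ℝ) * (LL m N : ℝ) ≤ 2 * m * (2 ^ (m + 3) * Real.log N) :=
          mul_le_mul_of_nonneg_left h4 (by positivity)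
      _ = _ := by ring
  set B : ℝ := 2 * m * 2 ^ (m + 3) * Real.log N with hB
  have hanti := Real.log_div_self_antitoneOn (show Real.exp 1 ≤ (Y : ℝ) by linarith)
    (show Real.exp 1 ≤ B by linarith) h2
  simp only at hanti
  have hlY : 0 < Real.log Y := by
    have := one_le_log hY3
    linarith
  have hBpos : 0 < B := by linarith
  have hlB : Real.log (Real.log N) ≤ Real.log B := by
    apply Real.log_le_log (by linarith)
    have h4 : (1 : ℝ) ≤ 2 * m * 2 ^ (m + 3) := by
      have : (1 : ℝ) ≤ 2 ^ (m + 3) := one_le_pow₀ (by norm_num)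
      nlinarith
    rw [hB]
    nlinarith
  have hlB0 : 0 < Real.log B := by linarith
  have h5 : (Y : ℝ) / Real.log Y ≤
      2 * m * 2 ^ (m + 3) * (Real.log N / Real.log (Real.log N)) := by
    calc (Y : ℝ) / Real.log Y ≤ B / Real.log B := by
          rw [div_le_div_iff₀ hBpos (by linarith)] at hanti
          rw [div_le_div_iff₀ hlY hlB0]
          linarith
      _ ≤ B / Real.log (Real.log N) := div_le_div_of_nonneg_left hBpos.le hll hlB
      _ = _ := by rw [hB]; ring
  calc 53 * (m : ℝ) * (Y / Real.log Y) ≤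
        53 * m * (2 * m * 2 ^ (m + 3) * (Real.log N / Real.log (Real.log N))) :=
        mul_le_mul_of_nonneg_left h5 (by positivity)
    _ = _ := by ring

end Pool.PWS
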